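import Pool.Agent.H86.T4H.Sm

/-!
Growth of the `l`-Selmer group in the cyclotomic towers over a base field, isogenies of odd prime
degree `l` with odd kernel; the model only has to be integral at the places of `S`, where the kernel
is in the kernel of reduction (good or multiplicative reduction).
-/

set_option autoImplicit false
set_option linter.style.haveILetI false
open scoped Classical

open WithZero WeierstrassCurve IsDedekindDomain NumberField Pool.Agent.H10 Pool.Agent.H11 H78D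
  H5SW H86IK H86IG

namespace H86G

/-- integral coefficients at a place -/
def IntAt {k : Type} [Field k] (v : Valuation k (WithZero (Multiplicative ℤ)))
    (E : WeierstrassCurve k) : Prop :=
  v E.a₁ ≤ 1 ∧ v E.a₂ ≤ 1 ∧ v E.a₃ ≤ 1 ∧ v E.a₄ ≤ 1 ∧ v E.a₆ ≤ 1

theorem int_up {k L : Type} [Field k] [NumberField k] [Field L] [NumberField L] [Algebra k L]
    {w : HeightOneSpectrum (𝓞 L)} {E : WeierstrassCurve k}
    (h : IntAt ((H73IS.below k w).valuation k) E) :
    IntAt (w.valuation L) (E.map (algebraMap k L)) := by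
  obtain ⟨h1, h2, h3, h4, h5⟩ := h
  exact ⟨val_le_one h1, val_le_one h2, val_le_one h3, val_le_one h4, val_le_one h5⟩

section

variable {L F : Type} [Field L] [NumberField L] [Field F] [NumberField F] [Algebra L F]
variable {l : ℕ} {V : WeierstrassCurve L} {W : WeierstrassCurve F}
    {hV : V.map (algebraMap L F) = W} {T : W.toAffine.Point} {ζ : F}

/-- the cost of a place -/
theorem cost3 (H : DG l hV T ζ) (𝔓 : HeightOneSpectrum (𝓞 F))
    (hunr : (l : 𝓞 L) ∈ (H73IS.below L 𝔓).asIdeal → (l : 𝓞 L) ∉ (H73IS.below L 𝔓).asIdeal ^ 2)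
    (c : ℕ)
    (hc : l ^ 3 ≤ c)
    (hcT : (l : 𝓞 F) ∈ 𝔓.asIdeal →
      ((∃ x y hxy, T = Affine.Point.some x y hxy ∧ 1 < 𝔓.valuation F x) ∧
        𝔓.valuation F W.a₁ ≤ 1 ∧ 𝔓.valuation F W.a₂ ≤ 1 ∧
        𝔓.valuation F W.a₃ ≤ 1 ∧ 𝔓.valuation F W.a₄ ≤ 1 ∧ 𝔓.valuation F W.a₆ ≤ 1) ∨
      l * Ideal.absNorm (H73IS.below L 𝔓).asIdeal ≤ c)
    {A : ValuationSubring (AlgebraicClosure F)}
    {D : Subgroup (AlgebraicClosure F ≃ₐ[F] AlgebraicClosure F)} (h : LS 𝔓 A D)
    (u : Fin (c + 1) → F) (hu : ∀ i, 𝔓.valuation F (u i) = 1) (hE : ∀ i, Eig l hV T ζ (u i)) :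
    ∃ i j, i ≠ j ∧ DX l W T ζ D (u i / u j) := by
  haveI := H.ell
  have hu0 : ∀ i, u i ≠ 0 := by
    intro i h0
    have h1 := hu i
    rw [h0, map_zero] at h1
    exact zero_ne_one h1
  have hl := H.prime
  have hl3 : 3 ≤ l := by
    have h1 := hl.two_le
    have h2 := H.odd
    omega
  have key : ∀ (n : ℕ) (hn : n ≤ c) (R : F → Prop)
      (_ : ∀ v : Fin (n + 1) → F, (∀ i, 𝔓.valuation F (v i) = 1) → (∀ i, Eig l hV T ζ (v i)) →
        ∃ i j, i ≠ j ∧ R (v i / v j)), ∃ i j, i ≠ j ∧ R (u i / u j) := by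
    intro n hn R hR
    obtain ⟨i, j, hij, hr⟩ := hR (fun i => u (Fin.castLE (by omega) i)) (fun i => hu _)
      (fun i => hE _)
    exact ⟨_, _, fun h0 => hij (Fin.castLE_injective _ h0), hr⟩
  by_cases hlP : (l : 𝓞 F) ∈ 𝔓.asIdeal
  · have hlw : (l : 𝓞 L) ∈ (H73IS.below L 𝔓).asIdeal := by
      rw [H73IS.mem_below, map_natCast]
      exact hlP
    have hram := ram_l H (H73IS.below L 𝔓) 𝔓 (fun x => (H73IS.mem_below 𝔓 x).symm) hlw
      (hunr hlw)
    rcases hcT hlP with ⟨hT', hgl⟩ | hcc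
    · have h3 : 3 * l ^ 2 ≤ c := by
        refine le_trans ?_ hc
        rw [pow_succ' l 2]
        exact Nat.mul_le_mul_right _ hl3
      exact key (3 * l ^ 2) h3 (DX l W T ζ D) (fun v hv1 _ => H86H.S_pigeon2 h hgl hl H.odd
        H.prim hram.1 H.Tl hT' v (fun i h0 => by
          have h1 := hv1 i
          rw [h0, map_zero] at h1
          exact zero_ne_one h1))
    · obtain ⟨i, j, hij, hr⟩ := key (l * Ideal.absNorm (H73IS.below L 𝔓).asIdeal) hcc
        (RT l D) (fun v hv1 hv2 => H86W.wild_pigeon_gen H (H73IS.below L 𝔓) 𝔓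
          (fun x => (H73IS.mem_below 𝔓 x).symm) hlw (hunr hlw) h v hv1 hv2)
      exact ⟨i, j, hij, dx_of_rt hl.ne_zero H.prim H.tp_ne.2 (div_ne_zero (hu0 i) (hu0 j)) hr⟩
  · have h3 : l ≤ c := le_trans (by
      calc l = l ^ 1 := (pow_one l).symm
        _ ≤ l ^ 3 := Nat.pow_le_pow_right hl.pos (by norm_num)) hc
    obtain ⟨i, j, hij, hr⟩ := key l h3 (RT l D)
      (fun v hv1 _ => tame_pigeon h hl H.prim hlP v hv1)
    exact ⟨i, j, hij, dx_of_rt hl.ne_zero H.prim H.tp_ne.2 (div_ne_zero (hu0 i) (hu0 j)) hr⟩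

/-- Growth of the `l`-Selmer group over one field. -/
theorem growth_L3 (H : DG l hV T ζ)
    (hodd : ∀ (ψ : F →+* ℂ) (δ : F ≃ₐ[L] F), (∀ x, ψ (δ x) = (starRingEnd ℂ) (ψ x)) →
      gp hV δ T = -T)
    (𝔅 : Finset (HeightOneSpectrum (𝓞 L)))
    (hgood : ∀ 𝔓 : HeightOneSpectrum (𝓞 F), H73IS.below L 𝔓 ∉ 𝔅 →
      GoodVal (𝔓.valuation F) W l)
    (hunr : ∀ w : HeightOneSpectrum (𝓞 L), (l : 𝓞 L) ∈ w.asIdeal → (l : 𝓞 L) ∉ w.asIdeal ^ 2)
    (S : Finset (HeightOneSpectrum (𝓞 L)))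
    (hS : ∀ 𝔓 : HeightOneSpectrum (𝓞 F), H73IS.below L 𝔓 ∈ S →
      (∃ x y hxy, T = Affine.Point.some x y hxy ∧ 1 < 𝔓.valuation F x) ∧
      𝔓.valuation F W.a₁ ≤ 1 ∧ 𝔓.valuation F W.a₂ ≤ 1 ∧ 𝔓.valuation F W.a₃ ≤ 1 ∧
      𝔓.valuation F W.a₄ ≤ 1 ∧ 𝔓.valuation F W.a₆ ≤ 1)
    (P : Finset V.toAffine.Point) (hP : ∀ X : V.toAffine.Point, ∃ p ∈ P, ∃ S, X = p + l • S)
    (T' : Finset (Coch L V))
    (hT' : ∀ f, IsCocycle L V f → IsLocTriv L V f → IsCobound L V (fun σ => l • f σ) →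
      ∃ t ∈ T', IsCobound L V (fun σ => f σ - t σ)) :
    l ^ Fintype.card (InfinitePlace L) ≤ l * (((l ^ 3) ^ 𝔅.card * ∏ w ∈ 𝔅,
      (if (l : 𝓞 L) ∈ w.asIdeal ∧ w ∉ S then Ideal.absNorm w.asIdeal else 1)) *
        (l ^ 2 * (P.card * T'.card))) := by
  haveI := H.ell
  haveI := H.gal
  have hl := H.prime
  have hTl := H.tp_ne.2
  choose up hup using fun w : HeightOneSpectrum (𝓞 L) => exists_above (F := F) w
  have hι : ∀ 𝔓 : HeightOneSpectrum (𝓞 F), Nonempty
      (AlgebraicClosure F →ₐ[F] AlgebraicClosure (𝔓.adicCompletion F)) :=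
    fun 𝔓 => ⟨IsAlgClosed.lift⟩
  let ι := fun 𝔓 : HeightOneSpectrum (𝓞 F) => (hι 𝔓).some
  choose A hA using fun 𝔓 => exists_LS 𝔓 (ι 𝔓)
  obtain ⟨u, hu, hdist⟩ := exists_fam H hodd
  set e : Fin (l ^ (Fintype.card (InfinitePlace L) - 1)) → F := fun i => ((u i : 𝓞 F) : F)
    with he
  have he0 : ∀ i, e i ≠ 0 := fun i => unit_ne _
  let N : HeightOneSpectrum (𝓞 L) → ℕ := fun w =>
    if (l : 𝓞 L) ∈ w.asIdeal ∧ w ∉ S then Ideal.absNorm w.asIdeal else 1
  have hN : ∀ w, 1 ≤ N w := by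
    intro w
    change 1 ≤ ite _ _ _
    split_ifs
    · rw [Nat.one_le_iff_ne_zero, Ne, Ideal.absNorm_eq_zero_iff]
      exact w.ne_bot
    · exact le_rfl
  -- the equivalence relation at a place
  let s : HeightOneSpectrum (𝓞 L) → Setoid (Fin (l ^ (Fintype.card (InfinitePlace L) - 1))) :=
    fun w =>
    { r := fun i j => DX l W T ζ (Dg (up w) (ι (up w))) (e i / e j)
      iseqv :=
        { refl := fun i => by
            rw [div_self (he0 i)]
            apply dx_of_rt hl.ne_zero H.prim hTl one_ne_zero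
            have h1 := rt_pow (l := l) (D := Dg (up w) (ι (up w))) (1 : F)
            rwa [one_pow] at h1
          symm := fun {i j} h => by
            have h1 := dx_inv hl.ne_zero H.prim hTl (div_ne_zero (he0 i) (he0 j)) h
            rwa [inv_div] at h1
          trans := fun {i j k} h1 h2 => by
            have h3 := dx_mul hl.ne_zero H.prim hTl (div_ne_zero (he0 i) (he0 j))
              (div_ne_zero (he0 j) (he0 k)) h1 h2
            rwa [div_mul_div_cancel₀ (he0 j)] at h3 } }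
  have hs : ∀ w, Fintype.card (Quotient (s w)) ≤ l ^ 3 * N w := by
    intro w
    apply card_quot_le
    intro f
    have hc := cost3 H (up w) (by rw [hup]; exact hunr w) (l ^ 3 * N w)
      (Nat.le_mul_of_pos_right _ (hN w)) (by
        intro h1
        by_cases h4 : w ∈ S
        · left
          exact hS (up w) (by rw [hup]; exact h4)
        right
        rw [hup]
        have h3 : (l : 𝓞 L) ∈ w.asIdeal := by
          rw [← hup w, H73IS.mem_below, map_natCast]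
          exact h1
        have h5 : N w = Ideal.absNorm w.asIdeal := if_pos ⟨h3, h4⟩
        rw [h5]
        refine Nat.mul_le_mul_right _ ?_
        calc l = l ^ 1 := (pow_one l).symm
          _ ≤ l ^ 3 := Nat.pow_le_pow_right hl.pos (by norm_num))
      (hA (up w)) (fun i => e (f i)) (fun i => unit_val _ _) (fun i => hu _)
    exact hc
  haveI : Fintype ((w : 𝔅) → Quotient (s w.1)) := Fintype.ofFinite _
  let φ : Fin (l ^ (Fintype.card (InfinitePlace L) - 1)) → ((w : 𝔅) → Quotient (s w.1)) :=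
    fun i w => Quotient.mk (s w.1) i
  have hfib : ∀ q ∈ Finset.univ.image φ,
      (Finset.univ.filter fun i => φ i = q).card ≤ l ^ 2 * (P.card * T'.card) := by
    intro q hq
    rw [Finset.mem_image] at hq
    obtain ⟨i₀, -, hi₀⟩ := hq
    have hsame : ∀ i, φ i = q → ∀ w ∈ 𝔅, DX l W T ζ (Dg (up w) (ι (up w))) (e i / e i₀) := by
      intro i hi w hw
      have e1 : Quotient.mk (s w) i = Quotient.mk (s w) i₀ :=
        congrFun (hi.trans hi₀.symm) ⟨w, hw⟩
      exact Quotient.exact e1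
    have hc := count_l H (ι := {i // φ i = q}) (fun i => e i.1 / e i₀)
      (fun i => div_ne_zero (he0 _) (he0 _)) (fun i => eig_div (hu _) (hu _))
      (by
        intro i 𝔔
        by_cases hw : H73IS.below L 𝔔 ∈ 𝔅
        · obtain ⟨δ, hδ⟩ := trans_place (L := L) (up (H73IS.below L 𝔔)) 𝔔 (hup _)
          exact px_conj H (div_ne_zero (he0 _) (he0 _)) (eig_div (hu _) (hu _))
            (up (H73IS.below L 𝔔)) 𝔔 δ hδ (ι _) (hsame i.1 i.2 _ hw)
        · intro ι'
          obtain ⟨A', hA'⟩ := exists_LS 𝔔 ι'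
          refine dx_good hA' hl H.prim hTl (hgood 𝔔 hw) ?_
          rw [map_div₀, unit_val, unit_val, div_one])
      (by
        rintro i j ⟨t, ht⟩
        apply Subtype.ext
        apply hdist
        refine ⟨t, ?_⟩
        rw [← ht]
        exact (div_div_div_cancel_right₀ (he0 i₀) (e i.1) (e j.1)).symm)
      P hP T' hT'
    rw [← Fintype.card_subtype]
    exact hc
  have h1 := Finset.card_le_mul_card_image (f := φ) Finset.univ
    (l ^ 2 * (P.card * T'.card)) hfib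
  rw [Finset.card_univ, Fintype.card_fin] at h1
  have h2 : (Finset.univ.image φ).card ≤ (l ^ 3) ^ 𝔅.card * ∏ w ∈ 𝔅, N w := by
    refine (Finset.card_le_univ _).trans ?_
    rw [← Nat.card_eq_fintype_card, Nat.card_pi]
    have h3 : ∏ w : 𝔅, Nat.card (Quotient (s w.1)) ≤ ∏ w : 𝔅, l ^ 3 * N w.1 :=
      Finset.prod_le_prod' fun w _ => by
        rw [Nat.card_eq_fintype_card]
        exact hs w.1
    refine h3.trans (le_of_eq ?_)
    rw [Finset.prod_mul_distrib, Finset.prod_const, Finset.card_univ, Fintype.card_coe,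
      Finset.prod_coe_sort 𝔅 N]
  have hpos : 0 < Fintype.card (InfinitePlace L) := Fintype.card_pos
  calc l ^ Fintype.card (InfinitePlace L)
      = l * l ^ (Fintype.card (InfinitePlace L) - 1) := by
        rw [← pow_succ']
        congr 1
        omega
    _ ≤ l * (l ^ 2 * (P.card * T'.card) * ((l ^ 3) ^ 𝔅.card * ∏ w ∈ 𝔅, N w)) :=
        Nat.mul_le_mul_left _ (h1.trans (Nat.mul_le_mul_left _ h2))
    _ = _ := by ring

end

section

variable {k N L : Type} [Field k] [NumberField k] [Field N] [NumberField N] [Algebra k N]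
  [IsGalois k N] [Field L] [NumberField L] [Algebra k L]

/-- Growth over one layer. -/
theorem growth_k3 {l : ℕ} (hl : l.Prime) (hl2 : l ≠ 2) {E : WeierstrassCurve k} (hΔ : E.Δ ≠ 0)
    {T₀ : (E.map (algebraMap k N)).toAffine.Point} (hT0 : T₀ ≠ 0) (hTl : l • T₀ = 0)
    (hst : ∀ g : N ≃ₐ[k] N, ∃ c : ℕ, gp (V := E) rfl g T₀ = c • T₀)
    (hodd : ∀ (φ : N →+* ℂ) (g : N ≃ₐ[k] N), (∀ x, φ (g x) = (starRingEnd ℂ) (φ x)) →
      gp (V := E) rfl g T₀ = -T₀)
    {D : ℤ} (hD0 : D ≠ 0) (hD : ∀ v : HeightOneSpectrum (𝓞 k),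
      (D : 𝓞 k) ∉ v.asIdeal → GoodVal (v.valuation k) E l)
    (S : Finset (HeightOneSpectrum (𝓞 k))) (hSl : ∀ v ∈ S, (l : 𝓞 k) ∈ v.asIdeal)
    (hgl : ∀ v ∈ S, IntAt (v.valuation k) E)
    (hS : ∀ 𝔫 : HeightOneSpectrum (𝓞 N), H73IS.below k 𝔫 ∈ S →
      ∃ x y hxy, T₀ = Affine.Point.some x y hxy ∧ 1 < 𝔫.valuation N x)
    (hunr : UnrL l L)
    (hreal : ∀ ψ : L →+* ℂ,
      ComplexEmbedding.IsReal (ψ.comp (algebraMap k L)) → ComplexEmbedding.IsReal ψ)
    (P : Finset (E.map (algebraMap k L)).toAffine.Point)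
    (hP : ∀ X : (E.map (algebraMap k L)).toAffine.Point, ∃ p ∈ P, ∃ S, X = p + l • S)
    (T' : Finset (Coch L (E.map (algebraMap k L))))
    (hT' : ∀ f, IsCocycle L (E.map (algebraMap k L)) f → IsLocTriv L (E.map (algebraMap k L)) f →
      IsCobound L (E.map (algebraMap k L)) (fun σ => l • f σ) →
      ∃ t ∈ T', IsCobound L (E.map (algebraMap k L)) (fun σ => f σ - t σ)) :
    (∏ v ∈ S, Ideal.absNorm v.asIdeal) ^ Module.finrank k L ≤
      (l ^ InfinitePlace.nrComplexPlaces k) ^ Module.finrank k L *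
        ((l ^ 3) ^ {w : HeightOneSpectrum (𝓞 L) | (D : 𝓞 L) ∈ w.asIdeal}.ncard *
          (l ^ 3 * (P.card * T'.card))) := by
  obtain ⟨F, _, _, _, T, ζ, M, _, _, f, ν, hf, hcomp, hTM, H, hoddF⟩ :=
    exists_F hl hl2 (L := L) hΔ hT0 hTl hst hodd
  have hfin := bad_fin (L := L) hD0
  have hmemB : ∀ w : HeightOneSpectrum (𝓞 L), w ∈ hfin.toFinset ↔ (D : 𝓞 L) ∈ w.asIdeal :=
    fun w => by
      rw [Set.Finite.mem_toFinset]
      rfl
  set 𝔅 := hfin.toFinset with h𝔅
  rw [Set.ncard_eq_toFinset_card _ hfin]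
  change _ ≤ _ * ((l ^ 3) ^ 𝔅.card * _)
  set SL := 𝔅.filter (fun w => H73IS.below k w ∈ S) with hSL
  have hDk : ∀ w : HeightOneSpectrum (𝓞 L), (D : 𝓞 L) ∈ w.asIdeal ↔
      (D : 𝓞 k) ∈ (H73IS.below k w).asIdeal := by
    intro w
    rw [H73IS.mem_below, map_intCast]
  have h0 := growth_L3 H hoddF 𝔅
    (fun 𝔓 h𝔓 => by
      apply goodVal_up
      apply goodVal_up
      apply hD
      rw [← hDk, ← hmemB]
      exact h𝔓)
    hunr SL
    (fun 𝔓 h𝔓 => by
      letI := f.toAlgebra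
      letI := ν.toAlgebra
      obtain ⟨𝔪, h𝔪⟩ := exists_above (L := F) (F := M) 𝔓
      have hbel : H73IS.below k (H73IS.below N 𝔪) = H73IS.below k (H73IS.below L 𝔓) := by
        apply HeightOneSpectrum.ext
        ext x
        rw [H73IS.mem_below, H73IS.mem_below, H73IS.mem_below, H73IS.mem_below, ← h𝔪,
          H73IS.mem_below]
        have e1 : algebraMap (𝓞 N) (𝓞 M) (algebraMap (𝓞 k) (𝓞 N) x) =
            algebraMap (𝓞 F) (𝓞 M) (algebraMap (𝓞 L) (𝓞 F) (algebraMap (𝓞 k) (𝓞 L) x)) := by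
          apply RingOfIntegers.ext
          exact hcomp x
        rw [e1]
      have hmem : H73IS.below k (H73IS.below N 𝔪) ∈ S := by
        rw [hbel]
        exact (Finset.mem_filter.1 h𝔓).2
      refine ⟨?_, int_up (int_up (hgl _ (by rw [← hbel]; exact hmem)))⟩
      obtain ⟨x₀, y₀, hxy₀, e0, hx0⟩ := hS _ hmem
      rcases hTe : T with _ | ⟨x, y, hxy⟩
      · exact absurd hTe H.T0
      · refine ⟨x, y, hxy, rfl, ?_⟩
        have e2 := hTM
        rw [hTe, e0, pm_some, pm_some, Affine.Point.some.injEq] at e2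
        have e3 : f x = ν x₀ := e2.1
        have h1 : 1 < 𝔪.valuation M (algebraMap N M x₀) := one_lt_val.2 hx0
        have h2 : algebraMap N M x₀ = algebraMap F M x := e3.symm
        rw [h2, one_lt_val, h𝔪] at h1
        exact h1)
    P hP T' hT'
  have hn := norm_le_finl hl (K := k) (L := L) S hSl (𝔅.filter fun w => (l : 𝓞 L) ∈ w.asIdeal ∧
      w ∉ SL)
    (fun w hw => (Finset.mem_filter.mp hw).2.1)
    (fun w hw v hv hle => by
      obtain ⟨g0, g1, g2⟩ := Finset.mem_filter.mp hw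
      apply g2
      rw [hSL, Finset.mem_filter]
      refine ⟨g0, ?_⟩
      rw [H86D.below_of_le hle]
      exact hv)
  rw [Finset.prod_filter] at hn
  have h1 := H86T3.inf_ge hreal
  have h3 : Module.finrank ℚ L = Module.finrank ℚ k * Module.finrank k L :=
    (Module.finrank_mul_finrank ℚ k L).symm
  have h4 : InfinitePlace.nrRealPlaces k + 2 * InfinitePlace.nrComplexPlaces k =
      Module.finrank ℚ k := InfinitePlace.card_add_two_mul_card_eq_rank k
  have h5 : Fintype.card (InfinitePlace k) =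
      InfinitePlace.nrRealPlaces k + InfinitePlace.nrComplexPlaces k :=
    InfinitePlace.card_eq_nrRealPlaces_add_nrComplexPlaces k
  have h6 : l ^ Module.finrank ℚ L =
      l ^ (Fintype.card (InfinitePlace k) * Module.finrank k L) *
        (l ^ InfinitePlace.nrComplexPlaces k) ^ Module.finrank k L := by
    rw [← pow_mul, ← pow_add, h3, ← h4, h5]
    congr 1
    ring
  set X := (∏ v ∈ S, Ideal.absNorm v.asIdeal) ^ Module.finrank k L with hX
  set Φ := ∏ w ∈ 𝔅, (if (l : 𝓞 L) ∈ w.asIdeal ∧ w ∉ SL then Ideal.absNorm w.asIdeal else 1)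
    with hΦ
  have h8 : 0 < l ^ (Fintype.card (InfinitePlace k) * Module.finrank k L) := pow_pos hl.pos _
  refine Nat.le_of_mul_le_mul_left ?_ h8
  calc l ^ (Fintype.card (InfinitePlace k) * Module.finrank k L) * X
      ≤ l ^ Fintype.card (InfinitePlace L) * X :=
        Nat.mul_le_mul_right _ (Nat.pow_le_pow_right hl.pos h1)
    _ ≤ (l * (((l ^ 3) ^ 𝔅.card * Φ) * (l ^ 2 * (P.card * T'.card)))) * X :=
        Nat.mul_le_mul_right _ h0
    _ = (X * Φ) * ((l ^ 3) ^ 𝔅.card * (l ^ 3 * (P.card * T'.card))) := by ring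
    _ ≤ l ^ Module.finrank ℚ L * ((l ^ 3) ^ 𝔅.card * (l ^ 3 * (P.card * T'.card))) :=
        Nat.mul_le_mul_right _ hn
    _ = _ := by rw [h6]; ring

end

/-- Growth of the `l`-Selmer group in the fields `k L'`: a curve with an isogeny of odd prime degree
`l` whose kernel is odd and connected at the places in `S` above `l`. -/
theorem growth_genG3 (l p : ℕ) [Fact l.Prime] [Fact p.Prime] (hl2 : l ≠ 2) (hp2 : p ≠ 2)
    (hpl : p ≠ l) {k N : Type} [Field k] [NumberField k] (hk : UnrL l k) [Field N]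
    [NumberField N] [Algebra k N] [IsGalois k N] {E : WeierstrassCurve k} (hΔ : E.Δ ≠ 0)
    {T₀ : (E.map (algebraMap k N)).toAffine.Point} (hT0 : T₀ ≠ 0) (hTl : l • T₀ = 0)
    (hst : ∀ g : N ≃ₐ[k] N, ∃ c : ℕ, gp (V := E) rfl g T₀ = c • T₀)
    (hodd : ∀ (φ : N →+* ℂ) (g : N ≃ₐ[k] N), (∀ x, φ (g x) = (starRingEnd ℂ) (φ x)) →
      gp (V := E) rfl g T₀ = -T₀)
    (S : Finset (HeightOneSpectrum (𝓞 k))) (hSl : ∀ v ∈ S, (l : 𝓞 k) ∈ v.asIdeal)
    (hgl : ∀ v ∈ S, IntAt (v.valuation k) E)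
    (hS : ∀ 𝔫 : HeightOneSpectrum (𝓞 N), H73IS.below k 𝔫 ∈ S →
      ∃ x y hxy, T₀ = Affine.Point.some x y hxy ∧ 1 < 𝔫.valuation N x) :
    ∃ C : ℕ, ∀ (L' L : Type) [Field L'] [NumberField L'] [Field L] [NumberField L] [Algebra k L]
      (h : L' →+* L), IsR p L' → IntermediateField.adjoin k (Set.range h) = ⊤ →
      ∀ (P : Finset (E.map (algebraMap k L)).toAffine.Point)
        (T' : Finset (Coch L (E.map (algebraMap k L)))),
      (∀ X : (E.map (algebraMap k L)).toAffine.Point, ∃ p ∈ P, ∃ S, X = p + l • S) →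
      (∀ f, IsCocycle L (E.map (algebraMap k L)) f → IsLocTriv L (E.map (algebraMap k L)) f →
        IsCobound L (E.map (algebraMap k L)) (fun σ => l • f σ) →
        ∃ t ∈ T', IsCobound L (E.map (algebraMap k L)) (fun σ => f σ - t σ)) →
      (∏ v ∈ S, Ideal.absNorm v.asIdeal) ^ Module.finrank k L ≤
        (l ^ InfinitePlace.nrComplexPlaces k) ^ Module.finrank k L *
          (C * (P.card * T'.card)) := by
  have hl : l.Prime := Fact.out
  obtain ⟨D, hD0, hD⟩ := exists_bad hΔ hl.ne_zero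
  obtain ⟨s, hs⟩ := bad_count (p := p) hp2 hD0
  refine ⟨(l ^ 3) ^ (Module.finrank ℚ k * s) * l ^ 3, ?_⟩
  intro L' L _ _ _ _ _ hL hR hgen P T' hP hT'
  have hd := finrank_gen hL hgen
  letI := hL.toAlgebra
  haveI := hR.1
  refine (growth_k3 hl hl2 hΔ hT0 hTl hst hodd hD0 hD S hSl hgl hS
    (unrl_gen hl hpl hk hL hR hgen) (real_gen hL hgen) P hP T' hT').trans ?_
  refine Nat.mul_le_mul_left _ ?_
  rw [mul_assoc ((l ^ 3) ^ (Module.finrank ℚ k * s)) (l ^ 3)]
  refine Nat.mul_le_mul_right _ (Nat.pow_le_pow_right (pow_pos hl.pos 3) ?_)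
  exact (ncard_above (K := L') hD0).trans (Nat.mul_le_mul hd (hs L' hR))

end H86G
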