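import Pool.Agent.H86.T4G.Ga
import Pool.Agent.H86.W6.Wu

/-!
Growth of the `l`-Selmer group over one field: reduction conditions only at the places of `S`
(assembly).
-/

set_option autoImplicit false
set_option linter.style.haveILetI false
open scoped Classical

open WithZero WeierstrassCurve IsDedekindDomain NumberField Pool.Agent.H10 Pool.Agent.H11 H78D

namespace H86G

section

variable {L F : Type} [Field L] [NumberField L] [Field F] [NumberField F] [Algebra L F]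
variable {l : ℕ} {V : WeierstrassCurve L} {W : WeierstrassCurve F}
    {hV : V.map (algebraMap L F) = W} {T : W.toAffine.Point} {ζ : F}

/-- the cost of a place -/
theorem cost2 (H : DG l hV T ζ) (𝔓 : HeightOneSpectrum (𝓞 F))
    (hunr : (l : 𝓞 L) ∈ (H73IS.below L 𝔓).asIdeal → (l : 𝓞 L) ∉ (H73IS.below L 𝔓).asIdeal ^ 2)
    (c : ℕ)
    (hc : l ^ 3 ≤ c)
    (hcT : (l : 𝓞 F) ∈ 𝔓.asIdeal →
      ((∃ x y hxy, T = Affine.Point.some x y hxy ∧ 1 < 𝔓.valuation F x) ∧
        𝔓.valuation F W.a₁ ≤ 1 ∧ 𝔓.valuation F W.a₂ ≤ 1 ∧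
        𝔓.valuation F W.a₃ ≤ 1 ∧ 𝔓.valuation F W.a₄ ≤ 1 ∧ 𝔓.valuation F W.a₆ ≤ 1 ∧
        𝔓.valuation F W.Δ = 1) ∨
      l * Ideal.absNorm (H73IS.below L 𝔓).asIdeal ≤ c)
    {A : ValuationSubring (AlgebraicClosure F)}
    {D : Subgroup (AlgebraicClosure F ≃ₐ[F] AlgebraicClosure F)} (h : LS 𝔓 A D)
    (u : Fin (c + 1) → F) (hu : ∀ i, 𝔓.valuation F (u i) = 1) (hE : ∀ i, Eig l hV T ζ (u i)) :
    ∃ i j, i ≠ j ∧ DX l W T ζ D (u i / u j) := by
  haveI := H.ell
  have hu0 : ∀ i, u i ≠ 0 := by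
    intro i h0
    have h1 := hu i
    rw [h0, map_zero] at h1
    exact zero_ne_one h1
  have hl := H.prime
  have hl3 : 3 ≤ l := by
    have h1 := hl.two_le
    have h2 := H.odd
    omega
  have key : ∀ (n : ℕ) (hn : n ≤ c) (R : F → Prop)
      (_ : ∀ v : Fin (n + 1) → F, (∀ i, 𝔓.valuation F (v i) = 1) → (∀ i, Eig l hV T ζ (v i)) →
        ∃ i j, i ≠ j ∧ R (v i / v j)), ∃ i j, i ≠ j ∧ R (u i / u j) := by
    intro n hn R hR
    obtain ⟨i, j, hij, hr⟩ := hR (fun i => u (Fin.castLE (by omega) i)) (fun i => hu _)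
      (fun i => hE _)
    exact ⟨_, _, fun h0 => hij (Fin.castLE_injective _ h0), hr⟩
  by_cases hlP : (l : 𝓞 F) ∈ 𝔓.asIdeal
  · have hlw : (l : 𝓞 L) ∈ (H73IS.below L 𝔓).asIdeal := by
      rw [H73IS.mem_below, map_natCast]
      exact hlP
    have hram := ram_l H (H73IS.below L 𝔓) 𝔓 (fun x => (H73IS.mem_below 𝔓 x).symm) hlw
      (hunr hlw)
    rcases hcT hlP with ⟨hT', hgl⟩ | hcc
    · have h3 : 3 * l ^ 2 ≤ c := by
        refine le_trans ?_ hc
        rw [pow_succ' l 2]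
        exact Nat.mul_le_mul_right _ hl3
      exact key (3 * l ^ 2) h3 (DX l W T ζ D) (fun v hv1 _ => S_pigeon h hgl hl H.odd
        H.prim hram.1 H.Tl hT' v (fun i h0 => by
          have h1 := hv1 i
          rw [h0, map_zero] at h1
          exact zero_ne_one h1))
    · obtain ⟨i, j, hij, hr⟩ := key (l * Ideal.absNorm (H73IS.below L 𝔓).asIdeal) hcc
        (RT l D) (fun v hv1 hv2 => H86W.wild_pigeon_gen H (H73IS.below L 𝔓) 𝔓
          (fun x => (H73IS.mem_below 𝔓 x).symm) hlw (hunr hlw) h v hv1 hv2)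
      exact ⟨i, j, hij, dx_of_rt hl.ne_zero H.prim H.tp_ne.2 (div_ne_zero (hu0 i) (hu0 j)) hr⟩
  · have h3 : l ≤ c := le_trans (by
      calc l = l ^ 1 := (pow_one l).symm
        _ ≤ l ^ 3 := Nat.pow_le_pow_right hl.pos (by norm_num)) hc
    obtain ⟨i, j, hij, hr⟩ := key l h3 (RT l D)
      (fun v hv1 _ => tame_pigeon h hl H.prim hlP v hv1)
    exact ⟨i, j, hij, dx_of_rt hl.ne_zero H.prim H.tp_ne.2 (div_ne_zero (hu0 i) (hu0 j)) hr⟩

/-- Growth of the `l`-Selmer group over one field. -/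
theorem growth_L2 (H : DG l hV T ζ)
    (hodd : ∀ (ψ : F →+* ℂ) (δ : F ≃ₐ[L] F), (∀ x, ψ (δ x) = (starRingEnd ℂ) (ψ x)) →
      gp hV δ T = -T)
    (𝔅 : Finset (HeightOneSpectrum (𝓞 L)))
    (hgood : ∀ 𝔓 : HeightOneSpectrum (𝓞 F), H73IS.below L 𝔓 ∉ 𝔅 →
      GoodVal (𝔓.valuation F) W l)
    (hunr : ∀ w : HeightOneSpectrum (𝓞 L), (l : 𝓞 L) ∈ w.asIdeal → (l : 𝓞 L) ∉ w.asIdeal ^ 2)
    (S : Finset (HeightOneSpectrum (𝓞 L)))
    (hS : ∀ 𝔓 : HeightOneSpectrum (𝓞 F), H73IS.below L 𝔓 ∈ S →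
      (∃ x y hxy, T = Affine.Point.some x y hxy ∧ 1 < 𝔓.valuation F x) ∧
      𝔓.valuation F W.a₁ ≤ 1 ∧ 𝔓.valuation F W.a₂ ≤ 1 ∧ 𝔓.valuation F W.a₃ ≤ 1 ∧
      𝔓.valuation F W.a₄ ≤ 1 ∧ 𝔓.valuation F W.a₆ ≤ 1 ∧ 𝔓.valuation F W.Δ = 1)
    (P : Finset V.toAffine.Point) (hP : ∀ X : V.toAffine.Point, ∃ p ∈ P, ∃ S, X = p + l • S)
    (T' : Finset (Coch L V))
    (hT' : ∀ f, IsCocycle L V f → IsLocTriv L V f → IsCobound L V (fun σ => l • f σ) →
      ∃ t ∈ T', IsCobound L V (fun σ => f σ - t σ)) :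
    l ^ Fintype.card (InfinitePlace L) ≤ l * (((l ^ 3) ^ 𝔅.card * ∏ w ∈ 𝔅,
      (if (l : 𝓞 L) ∈ w.asIdeal ∧ w ∉ S then Ideal.absNorm w.asIdeal else 1)) *
        (l ^ 2 * (P.card * T'.card))) := by
  haveI := H.ell
  haveI := H.gal
  have hl := H.prime
  have hTl := H.tp_ne.2
  choose up hup using fun w : HeightOneSpectrum (𝓞 L) => exists_above (F := F) w
  have hι : ∀ 𝔓 : HeightOneSpectrum (𝓞 F), Nonempty
      (AlgebraicClosure F →ₐ[F] AlgebraicClosure (𝔓.adicCompletion F)) :=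
    fun 𝔓 => ⟨IsAlgClosed.lift⟩
  let ι := fun 𝔓 : HeightOneSpectrum (𝓞 F) => (hι 𝔓).some
  choose A hA using fun 𝔓 => exists_LS 𝔓 (ι 𝔓)
  obtain ⟨u, hu, hdist⟩ := exists_fam H hodd
  set e : Fin (l ^ (Fintype.card (InfinitePlace L) - 1)) → F := fun i => ((u i : 𝓞 F) : F)
    with he
  have he0 : ∀ i, e i ≠ 0 := fun i => unit_ne _
  let N : HeightOneSpectrum (𝓞 L) → ℕ := fun w =>
    if (l : 𝓞 L) ∈ w.asIdeal ∧ w ∉ S then Ideal.absNorm w.asIdeal else 1
  have hN : ∀ w, 1 ≤ N w := by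
    intro w
    change 1 ≤ ite _ _ _
    split_ifs
    · rw [Nat.one_le_iff_ne_zero, Ne, Ideal.absNorm_eq_zero_iff]
      exact w.ne_bot
    · exact le_rfl
  -- the equivalence relation at a place
  let s : HeightOneSpectrum (𝓞 L) → Setoid (Fin (l ^ (Fintype.card (InfinitePlace L) - 1))) :=
    fun w =>
    { r := fun i j => DX l W T ζ (Dg (up w) (ι (up w))) (e i / e j)
      iseqv :=
        { refl := fun i => by
            rw [div_self (he0 i)]
            apply dx_of_rt hl.ne_zero H.prim hTl one_ne_zero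
            have h1 := rt_pow (l := l) (D := Dg (up w) (ι (up w))) (1 : F)
            rwa [one_pow] at h1
          symm := fun {i j} h => by
            have h1 := dx_inv hl.ne_zero H.prim hTl (div_ne_zero (he0 i) (he0 j)) h
            rwa [inv_div] at h1
          trans := fun {i j k} h1 h2 => by
            have h3 := dx_mul hl.ne_zero H.prim hTl (div_ne_zero (he0 i) (he0 j))
              (div_ne_zero (he0 j) (he0 k)) h1 h2
            rwa [div_mul_div_cancel₀ (he0 j)] at h3 } }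
  have hs : ∀ w, Fintype.card (Quotient (s w)) ≤ l ^ 3 * N w := by
    intro w
    apply card_quot_le
    intro f
    have hc := cost2 H (up w) (by rw [hup]; exact hunr w) (l ^ 3 * N w)
      (Nat.le_mul_of_pos_right _ (hN w)) (by
        intro h1
        by_cases h4 : w ∈ S
        · left
          exact hS (up w) (by rw [hup]; exact h4)
        right
        rw [hup]
        have h3 : (l : 𝓞 L) ∈ w.asIdeal := by
          rw [← hup w, H73IS.mem_below, map_natCast]
          exact h1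
        have h5 : N w = Ideal.absNorm w.asIdeal := if_pos ⟨h3, h4⟩
        rw [h5]
        refine Nat.mul_le_mul_right _ ?_
        calc l = l ^ 1 := (pow_one l).symm
          _ ≤ l ^ 3 := Nat.pow_le_pow_right hl.pos (by norm_num))
      (hA (up w)) (fun i => e (f i)) (fun i => unit_val _ _) (fun i => hu _)
    exact hc
  haveI : Fintype ((w : 𝔅) → Quotient (s w.1)) := Fintype.ofFinite _
  let φ : Fin (l ^ (Fintype.card (InfinitePlace L) - 1)) → ((w : 𝔅) → Quotient (s w.1)) :=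
    fun i w => Quotient.mk (s w.1) i
  have hfib : ∀ q ∈ Finset.univ.image φ,
      (Finset.univ.filter fun i => φ i = q).card ≤ l ^ 2 * (P.card * T'.card) := by
    intro q hq
    rw [Finset.mem_image] at hq
    obtain ⟨i₀, -, hi₀⟩ := hq
    have hsame : ∀ i, φ i = q → ∀ w ∈ 𝔅, DX l W T ζ (Dg (up w) (ι (up w))) (e i / e i₀) := by
      intro i hi w hw
      have e1 : Quotient.mk (s w) i = Quotient.mk (s w) i₀ :=
        congrFun (hi.trans hi₀.symm) ⟨w, hw⟩
      exact Quotient.exact e1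
    have hc := count_l H (ι := {i // φ i = q}) (fun i => e i.1 / e i₀)
      (fun i => div_ne_zero (he0 _) (he0 _)) (fun i => eig_div (hu _) (hu _))
      (by
        intro i 𝔔
        by_cases hw : H73IS.below L 𝔔 ∈ 𝔅
        · obtain ⟨δ, hδ⟩ := trans_place (L := L) (up (H73IS.below L 𝔔)) 𝔔 (hup _)
          exact px_conj H (div_ne_zero (he0 _) (he0 _)) (eig_div (hu _) (hu _))
            (up (H73IS.below L 𝔔)) 𝔔 δ hδ (ι _) (hsame i.1 i.2 _ hw)
        · intro ι'
          obtain ⟨A', hA'⟩ := exists_LS 𝔔 ι'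
          refine dx_good hA' hl H.prim hTl (hgood 𝔔 hw) ?_
          rw [map_div₀, unit_val, unit_val, div_one])
      (by
        rintro i j ⟨t, ht⟩
        apply Subtype.ext
        apply hdist
        refine ⟨t, ?_⟩
        rw [← ht]
        exact (div_div_div_cancel_right₀ (he0 i₀) (e i.1) (e j.1)).symm)
      P hP T' hT'
    rw [← Fintype.card_subtype]
    exact hc
  have h1 := Finset.card_le_mul_card_image (f := φ) Finset.univ
    (l ^ 2 * (P.card * T'.card)) hfib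
  rw [Finset.card_univ, Fintype.card_fin] at h1
  have h2 : (Finset.univ.image φ).card ≤ (l ^ 3) ^ 𝔅.card * ∏ w ∈ 𝔅, N w := by
    refine (Finset.card_le_univ _).trans ?_
    rw [← Nat.card_eq_fintype_card, Nat.card_pi]
    have h3 : ∏ w : 𝔅, Nat.card (Quotient (s w.1)) ≤ ∏ w : 𝔅, l ^ 3 * N w.1 :=
      Finset.prod_le_prod' fun w _ => by
        rw [Nat.card_eq_fintype_card]
        exact hs w.1
    refine h3.trans (le_of_eq ?_)
    rw [Finset.prod_mul_distrib, Finset.prod_const, Finset.card_univ, Fintype.card_coe,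
      Finset.prod_coe_sort 𝔅 N]
  have hpos : 0 < Fintype.card (InfinitePlace L) := Fintype.card_pos
  calc l ^ Fintype.card (InfinitePlace L)
      = l * l ^ (Fintype.card (InfinitePlace L) - 1) := by
        rw [← pow_succ']
        congr 1
        omega
    _ ≤ l * (l ^ 2 * (P.card * T'.card) * ((l ^ 3) ^ 𝔅.card * ∏ w ∈ 𝔅, N w)) :=
        Nat.mul_le_mul_left _ (h1.trans (Nat.mul_le_mul_left _ h2))
    _ = _ := by ring

end

end H86G
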