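import Pool.Agent.H86.T4G.Gk
import Pool.Agent.H86.T4H.Gb

/-!
Growth of the `l`-Selmer group in the cyclotomic towers over a base field, isogenies of odd prime
degree `l` with odd kernel; good reduction is only needed at the places of `S`.
-/

set_option autoImplicit false
set_option linter.style.haveILetI false
open scoped Classical

open WithZero WeierstrassCurve IsDedekindDomain NumberField Pool.Agent.H10 Pool.Agent.H11 H78D
  H5SW H86IK H86IG

namespace H86G

section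

variable {k N L : Type} [Field k] [NumberField k] [Field N] [NumberField N] [Algebra k N]
  [IsGalois k N] [Field L] [NumberField L] [Algebra k L]

/-- Growth over one layer. -/
theorem growth_k2 {l : ℕ} (hl : l.Prime) (hl2 : l ≠ 2) {E : WeierstrassCurve k} (hΔ : E.Δ ≠ 0)
    {T₀ : (E.map (algebraMap k N)).toAffine.Point} (hT0 : T₀ ≠ 0) (hTl : l • T₀ = 0)
    (hst : ∀ g : N ≃ₐ[k] N, ∃ c : ℕ, gp (V := E) rfl g T₀ = c • T₀)
    (hodd : ∀ (φ : N →+* ℂ) (g : N ≃ₐ[k] N), (∀ x, φ (g x) = (starRingEnd ℂ) (φ x)) →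
      gp (V := E) rfl g T₀ = -T₀)
    {D : ℤ} (hD0 : D ≠ 0) (hD : ∀ v : HeightOneSpectrum (𝓞 k),
      (D : 𝓞 k) ∉ v.asIdeal → GoodVal (v.valuation k) E l)
    (S : Finset (HeightOneSpectrum (𝓞 k))) (hSl : ∀ v ∈ S, (l : 𝓞 k) ∈ v.asIdeal)
    (hgl : ∀ v ∈ S, GI (v.valuation k) E)
    (hS : ∀ 𝔫 : HeightOneSpectrum (𝓞 N), H73IS.below k 𝔫 ∈ S →
      ∃ x y hxy, T₀ = Affine.Point.some x y hxy ∧ 1 < 𝔫.valuation N x)
    (hunr : UnrL l L)
    (hreal : ∀ ψ : L →+* ℂ,
      ComplexEmbedding.IsReal (ψ.comp (algebraMap k L)) → ComplexEmbedding.IsReal ψ)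
    (P : Finset (E.map (algebraMap k L)).toAffine.Point)
    (hP : ∀ X : (E.map (algebraMap k L)).toAffine.Point, ∃ p ∈ P, ∃ S, X = p + l • S)
    (T' : Finset (Coch L (E.map (algebraMap k L))))
    (hT' : ∀ f, IsCocycle L (E.map (algebraMap k L)) f → IsLocTriv L (E.map (algebraMap k L)) f →
      IsCobound L (E.map (algebraMap k L)) (fun σ => l • f σ) →
      ∃ t ∈ T', IsCobound L (E.map (algebraMap k L)) (fun σ => f σ - t σ)) :
    (∏ v ∈ S, Ideal.absNorm v.asIdeal) ^ Module.finrank k L ≤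
      (l ^ InfinitePlace.nrComplexPlaces k) ^ Module.finrank k L *
        ((l ^ 3) ^ {w : HeightOneSpectrum (𝓞 L) | (D : 𝓞 L) ∈ w.asIdeal}.ncard *
          (l ^ 3 * (P.card * T'.card))) := by
  obtain ⟨F, _, _, _, T, ζ, M, _, _, f, ν, hf, hcomp, hTM, H, hoddF⟩ :=
    exists_F hl hl2 (L := L) hΔ hT0 hTl hst hodd
  have hfin := bad_fin (L := L) hD0
  have hmemB : ∀ w : HeightOneSpectrum (𝓞 L), w ∈ hfin.toFinset ↔ (D : 𝓞 L) ∈ w.asIdeal :=
    fun w => by
      rw [Set.Finite.mem_toFinset]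
      rfl
  set 𝔅 := hfin.toFinset with h𝔅
  rw [Set.ncard_eq_toFinset_card _ hfin]
  change _ ≤ _ * ((l ^ 3) ^ 𝔅.card * _)
  set SL := 𝔅.filter (fun w => H73IS.below k w ∈ S) with hSL
  have hDk : ∀ w : HeightOneSpectrum (𝓞 L), (D : 𝓞 L) ∈ w.asIdeal ↔
      (D : 𝓞 k) ∈ (H73IS.below k w).asIdeal := by
    intro w
    rw [H73IS.mem_below, map_intCast]
  have h0 := growth_L2 H hoddF 𝔅
    (fun 𝔓 h𝔓 => by
      apply goodVal_up
      apply goodVal_up
      apply hD
      rw [← hDk, ← hmemB]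
      exact h𝔓)
    hunr SL
    (fun 𝔓 h𝔓 => by
      letI := f.toAlgebra
      letI := ν.toAlgebra
      obtain ⟨𝔪, h𝔪⟩ := exists_above (L := F) (F := M) 𝔓
      have hbel : H73IS.below k (H73IS.below N 𝔪) = H73IS.below k (H73IS.below L 𝔓) := by
        apply HeightOneSpectrum.ext
        ext x
        rw [H73IS.mem_below, H73IS.mem_below, H73IS.mem_below, H73IS.mem_below, ← h𝔪,
          H73IS.mem_below]
        have e1 : algebraMap (𝓞 N) (𝓞 M) (algebraMap (𝓞 k) (𝓞 N) x) =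
            algebraMap (𝓞 F) (𝓞 M) (algebraMap (𝓞 L) (𝓞 F) (algebraMap (𝓞 k) (𝓞 L) x)) := by
          apply RingOfIntegers.ext
          exact hcomp x
        rw [e1]
      have hmem : H73IS.below k (H73IS.below N 𝔪) ∈ S := by
        rw [hbel]
        exact (Finset.mem_filter.1 h𝔓).2
      refine ⟨?_, gi_up (gi_up (hgl _ (by rw [← hbel]; exact hmem)))⟩
      obtain ⟨x₀, y₀, hxy₀, e0, hx0⟩ := hS _ hmem
      rcases hTe : T with _ | ⟨x, y, hxy⟩
      · exact absurd hTe H.T0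
      · refine ⟨x, y, hxy, rfl, ?_⟩
        have e2 := hTM
        rw [hTe, e0, pm_some, pm_some, Affine.Point.some.injEq] at e2
        have e3 : f x = ν x₀ := e2.1
        have h1 : 1 < 𝔪.valuation M (algebraMap N M x₀) := one_lt_val.2 hx0
        have h2 : algebraMap N M x₀ = algebraMap F M x := e3.symm
        rw [h2, one_lt_val, h𝔪] at h1
        exact h1)
    P hP T' hT'
  have hn := norm_le_finl hl (K := k) (L := L) S hSl (𝔅.filter fun w => (l : 𝓞 L) ∈ w.asIdeal ∧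
      w ∉ SL)
    (fun w hw => (Finset.mem_filter.mp hw).2.1)
    (fun w hw v hv hle => by
      obtain ⟨g0, g1, g2⟩ := Finset.mem_filter.mp hw
      apply g2
      rw [hSL, Finset.mem_filter]
      refine ⟨g0, ?_⟩
      rw [H86D.below_of_le hle]
      exact hv)
  rw [Finset.prod_filter] at hn
  have h1 := H86T3.inf_ge hreal
  have h3 : Module.finrank ℚ L = Module.finrank ℚ k * Module.finrank k L :=
    (Module.finrank_mul_finrank ℚ k L).symm
  have h4 : InfinitePlace.nrRealPlaces k + 2 * InfinitePlace.nrComplexPlaces k =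
      Module.finrank ℚ k := InfinitePlace.card_add_two_mul_card_eq_rank k
  have h5 : Fintype.card (InfinitePlace k) =
      InfinitePlace.nrRealPlaces k + InfinitePlace.nrComplexPlaces k :=
    InfinitePlace.card_eq_nrRealPlaces_add_nrComplexPlaces k
  have h6 : l ^ Module.finrank ℚ L =
      l ^ (Fintype.card (InfinitePlace k) * Module.finrank k L) *
        (l ^ InfinitePlace.nrComplexPlaces k) ^ Module.finrank k L := by
    rw [← pow_mul, ← pow_add, h3, ← h4, h5]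
    congr 1
    ring
  set X := (∏ v ∈ S, Ideal.absNorm v.asIdeal) ^ Module.finrank k L with hX
  set Φ := ∏ w ∈ 𝔅, (if (l : 𝓞 L) ∈ w.asIdeal ∧ w ∉ SL then Ideal.absNorm w.asIdeal else 1)
    with hΦ
  have h8 : 0 < l ^ (Fintype.card (InfinitePlace k) * Module.finrank k L) := pow_pos hl.pos _
  refine Nat.le_of_mul_le_mul_left ?_ h8
  calc l ^ (Fintype.card (InfinitePlace k) * Module.finrank k L) * X
      ≤ l ^ Fintype.card (InfinitePlace L) * X :=
        Nat.mul_le_mul_right _ (Nat.pow_le_pow_right hl.pos h1)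
    _ ≤ (l * (((l ^ 3) ^ 𝔅.card * Φ) * (l ^ 2 * (P.card * T'.card)))) * X :=
        Nat.mul_le_mul_right _ h0
    _ = (X * Φ) * ((l ^ 3) ^ 𝔅.card * (l ^ 3 * (P.card * T'.card))) := by ring
    _ ≤ l ^ Module.finrank ℚ L * ((l ^ 3) ^ 𝔅.card * (l ^ 3 * (P.card * T'.card))) :=
        Nat.mul_le_mul_right _ hn
    _ = _ := by rw [h6]; ring

end

/-- Growth of the `l`-Selmer group in the fields `k L'`: a curve with an isogeny of odd prime degree
`l` whose kernel is odd and connected at the places in `S` above `l`. -/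
theorem growth_genG2 (l p : ℕ) [Fact l.Prime] [Fact p.Prime] (hl2 : l ≠ 2) (hp2 : p ≠ 2)
    (hpl : p ≠ l) {k N : Type} [Field k] [NumberField k] (hk : UnrL l k) [Field N]
    [NumberField N] [Algebra k N] [IsGalois k N] {E : WeierstrassCurve k} (hΔ : E.Δ ≠ 0)
    {T₀ : (E.map (algebraMap k N)).toAffine.Point} (hT0 : T₀ ≠ 0) (hTl : l • T₀ = 0)
    (hst : ∀ g : N ≃ₐ[k] N, ∃ c : ℕ, gp (V := E) rfl g T₀ = c • T₀)
    (hodd : ∀ (φ : N →+* ℂ) (g : N ≃ₐ[k] N), (∀ x, φ (g x) = (starRingEnd ℂ) (φ x)) →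
      gp (V := E) rfl g T₀ = -T₀)
    (S : Finset (HeightOneSpectrum (𝓞 k))) (hSl : ∀ v ∈ S, (l : 𝓞 k) ∈ v.asIdeal)
    (hgl : ∀ v ∈ S, GI (v.valuation k) E)
    (hS : ∀ 𝔫 : HeightOneSpectrum (𝓞 N), H73IS.below k 𝔫 ∈ S →
      ∃ x y hxy, T₀ = Affine.Point.some x y hxy ∧ 1 < 𝔫.valuation N x) :
    ∃ C : ℕ, ∀ (L' L : Type) [Field L'] [NumberField L'] [Field L] [NumberField L] [Algebra k L]
      (h : L' →+* L), IsR p L' → IntermediateField.adjoin k (Set.range h) = ⊤ →
      ∀ (P : Finset (E.map (algebraMap k L)).toAffine.Point)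
        (T' : Finset (Coch L (E.map (algebraMap k L)))),
      (∀ X : (E.map (algebraMap k L)).toAffine.Point, ∃ p ∈ P, ∃ S, X = p + l • S) →
      (∀ f, IsCocycle L (E.map (algebraMap k L)) f → IsLocTriv L (E.map (algebraMap k L)) f →
        IsCobound L (E.map (algebraMap k L)) (fun σ => l • f σ) →
        ∃ t ∈ T', IsCobound L (E.map (algebraMap k L)) (fun σ => f σ - t σ)) →
      (∏ v ∈ S, Ideal.absNorm v.asIdeal) ^ Module.finrank k L ≤
        (l ^ InfinitePlace.nrComplexPlaces k) ^ Module.finrank k L *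
          (C * (P.card * T'.card)) := by
  have hl : l.Prime := Fact.out
  obtain ⟨D, hD0, hD⟩ := exists_bad hΔ hl.ne_zero
  obtain ⟨s, hs⟩ := bad_count (p := p) hp2 hD0
  refine ⟨(l ^ 3) ^ (Module.finrank ℚ k * s) * l ^ 3, ?_⟩
  intro L' L _ _ _ _ _ hL hR hgen P T' hP hT'
  have hd := finrank_gen hL hgen
  letI := hL.toAlgebra
  haveI := hR.1
  refine (growth_k2 hl hl2 hΔ hT0 hTl hst hodd hD0 hD S hSl hgl hS
    (unrl_gen hl hpl hk hL hR hgen) (real_gen hL hgen) P hP T' hT').trans ?_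
  refine Nat.mul_le_mul_left _ ?_
  rw [mul_assoc ((l ^ 3) ^ (Module.finrank ℚ k * s)) (l ^ 3)]
  refine Nat.mul_le_mul_right _ (Nat.pow_le_pow_right (pow_pos hl.pos 3) ?_)
  exact (ncard_above (K := L') hD0).trans (Nat.mul_le_mul hd (hs L' hR))

end H86G
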