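import Pool.Agent.H86.T4G.Sp
import Pool.Agent.H86.T4H.Gc

/-!
The local condition at a place above `l` where `T` is in the kernel of reduction, for an integral
model without any condition on the discriminant (no row).
-/

set_option autoImplicit false
open scoped Classical

open WithZero WeierstrassCurve IsDedekindDomain NumberField Pool.Agent.H10
  Pool.Agent.H11 H78D H2T4 H86G

namespace H86H

theorem exists_val2 {Ω : Type} [Field Ω] [IsAlgClosed Ω] [CharZero Ω] (A : ValuationSubring Ω)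
    (W : WeierstrassCurve Ω) (hW : Integral A W) (hΔ : W.Δ ≠ 0) (n : ℕ) (hn : n ≠ 0) :
    ∃ a b : Polynomial Ω, a.Monic ∧ a.natDegree = n ^ 2 ∧ b.natDegree ≤ n ^ 2 - 1 ∧
      b.coeff (n ^ 2 - 1) = (n : Ω) ^ 2 ∧ (∀ i, A.valuation (a.coeff i) ≤ 1) ∧
      (∀ i, A.valuation (b.coeff i) ≤ 1) ∧ AB W n a b := by
  have hinj : Function.Injective (A.subtype : A →+* Ω) := Subtype.val_injective
  have hmap := Dv_map A W hW
  have hD : (A.subtype (Dv_W A W hW).Δ) = W.Δ := by
    conv_rhs => rw [← hmap]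
    rw [WeierstrassCurve.map_Δ]
  have hD0 : A.subtype (Dv_W A W hW).Δ ≠ 0 := by
    rw [hD]
    exact hΔ
  obtain ⟨a, b, ham, had, hbd, hbc, hAB, hall⟩ := exists_int A.subtype hinj (Dv_W A W hW) hD0 n hn
  rw [hmap] at hAB
  refine ⟨a.map A.subtype, b.map A.subtype, ham.map _, ?_, ?_, ?_, ?_, ?_, hAB⟩
  · rw [ham.natDegree_map, had]
  · exact (Polynomial.natDegree_map_le).trans hbd
  · rw [Polynomial.coeff_map, hbc]; simp
  · intro i; rw [Polynomial.coeff_map]; exact A.valuation_le_one (a.coeff i)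
  · intro i; rw [Polynomial.coeff_map]; exact A.valuation_le_one (b.coeff i)

section

variable {Ω : Type} [Field Ω] [IsAlgClosed Ω] [CharZero Ω] {A : ValuationSubring Ω}
  {E : WeierstrassCurve Ω} [E.IsElliptic]

omit [IsAlgClosed Ω] [CharZero Ω] in
theorem disc_ne : E.Δ ≠ 0 := E.isUnit_Δ.ne_zero

theorem prod_gen (hE : Integral A E) (h2 : A.valuation (2 : Ω) = 1)
    {l : ℕ} (hl : l ≠ 0) {a b : Polynomial Ω} (ha : a.Monic) (had : a.natDegree = l ^ 2)
    (hbd : b.natDegree ≤ l ^ 2 - 1) (hAB : AB E l a b) (P : E.toAffine.Point)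
    (hP : InE1 A E (l • P)) (h0 : l • P ≠ 0) {c y : Ω} {h : E.toAffine.Nonsingular c y}
    (hlP : l • P = Affine.Point.some c y h) (D : A.ValueGroup)
    (hD : ∀ i, A.valuation ((a - Polynomial.C c * b).coeff i) ≤ D)
    (s : Finset E.toAffine.Point) (hs : ∀ T ∈ s, l • T = 0 ∧ InE1 A E (P + T)) :
    (∏ T ∈ s, A.valuation (zc E (P + T)))⁻¹ ≤ D := by
  have hmul : ∀ T ∈ s, l • (P + T) = l • P := by
    intro T hT
    rw [smul_add, (hs T hT).1, add_zero]
  have hT : ∀ T ∈ s, ∃ (x y : Ω) (h : E.toAffine.Nonsingular x y),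
      P + T = Affine.Point.some x y h ∧ 1 < A.valuation x ∧ x ≠ 0 := by
    intro T hT
    refine Sa_some (hs T hT).2 ?_
    intro h1
    have h3 := hmul T hT
    rw [h1, smul_zero] at h3
    exact h0 h3.symm
  have hx : ∀ T ∈ s, 1 < A.valuation ((P + T).xRep 0) ∧
      A.valuation (zc E (P + T)) = (A.valuation ((P + T).xRep 0))⁻¹ ∧
      (a - Polynomial.C c * b).eval ((P + T).xRep 0) = 0 := by
    intro T hTs
    obtain ⟨x, y', h', e1, hx1, hx0⟩ := hT T hTs
    have hr : (P + T).xRep 0 = x := by rw [e1, Affine.Point.xRep_some]; rfl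
    rw [hr]
    refine ⟨hx1, ?_, ?_⟩
    · rw [e1, zc_some, map_inv₀]
    · have h3 := hmul T hTs
      rw [e1, hlP] at h3
      obtain ⟨e, -, e2, e3⟩ := Sa_eval hAB h' h h3
      rw [Polynomial.eval_sub, Polynomial.eval_mul, Polynomial.eval_C, e2, e3]
      ring
  have hinj : Set.InjOn (fun T : E.toAffine.Point => (P + T).xRep 0) (s : Set E.toAffine.Point) := by
    intro T hTs T' hTs' heq
    obtain ⟨x, y₁, h₁, e1, -, -⟩ := hT T hTs
    obtain ⟨x', y₂, h₂, e2, -, -⟩ := hT T' hTs'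
    have hr : (P + T).xRep 0 = x := by rw [e1, Affine.Point.xRep_some]; rfl
    have hr' : (P + T').xRep 0 = x' := by rw [e2, Affine.Point.xRep_some]; rfl
    have hxx : x = x' := by rw [← hr, ← hr']; exact heq
    rcases (Affine.Point.X_eq_iff (h₁ := h₁) (h₂ := h₂)).mp hxx with h3 | h3
    · rw [← e1, ← e2] at h3
      exact add_left_cancel h3
    · exfalso
      rw [← e1, ← e2] at h3
      have h4 : l • P = -(l • P) := by
        calc l • P = l • (P + T) := (hmul T hTs).symm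
          _ = -(l • (P + T')) := by rw [h3, smul_neg]
          _ = -(l • P) := by rw [hmul T' hTs']
      have h5 : 2 • (l • P) = 0 := by
        rw [two_nsmul]
        nth_rewrite 1 [h4]
        exact neg_add_cancel _
      exact h0 (hP.eq_zero hE 2 (by exact_mod_cast h2) h5)
  have hg := gauss_le A (Sa_monic hl ha had hbd c) D hD
    (s.image (fun T : E.toAffine.Point => (P + T).xRep 0)) (by
      intro ρ hρ
      obtain ⟨T, hTs, rfl⟩ := Finset.mem_image.mp hρ
      exact (hx T hTs).2.2)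
  rw [Finset.prod_image hinj] at hg
  have e1 : ∏ T ∈ s, max 1 (A.valuation ((P + T).xRep 0)) = ∏ T ∈ s, A.valuation ((P + T).xRep 0) :=
    Finset.prod_congr rfl (fun T hTs => max_eq_right (hx T hTs).1.le)
  rw [e1] at hg
  have e2 : ∏ T ∈ s, A.valuation (zc E (P + T)) = (∏ T ∈ s, A.valuation ((P + T).xRep 0))⁻¹ := by
    rw [← Finset.prod_inv_distrib]
    exact Finset.prod_congr rfl (fun T hTs => (hx T hTs).2.1)
  rw [e2, inv_inv]
  exact hg

theorem prod_le2 (hE : Integral A E) (h2 : A.valuation (2 : Ω) = 1)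
    {l : ℕ} (hl : l ≠ 0) (P : E.toAffine.Point) (hP : InE1 A E (l • P)) (h0 : l • P ≠ 0)
    (s : Finset E.toAffine.Point) (hs : ∀ T ∈ s, l • T = 0 ∧ InE1 A E (P + T)) :
    A.valuation (zc E (l • P)) ≤ ∏ T ∈ s, A.valuation (zc E (P + T)) := by
  obtain ⟨a, b, ha, had, hbd, hbc, hai, hbi, hAB⟩ := exists_val2 A E hE disc_ne l hl
  obtain ⟨c, y, h, hlP, hc, hc0⟩ := Sa_some hP h0
  have h3 := prod_gen hE h2 hl ha had hbd hAB P hP h0 hlP _ (Sa_coeff hai hbi hc) s hs
  rw [hlP, zc_some, map_inv₀]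
  have h4 := inv_anti₀ (inv_pos.2 (zero_lt_iff.2 ?_)) h3
  · rwa [inv_inv] at h4
  · rw [Finset.prod_ne_zero_iff]
    intro T hT
    rw [_root_.map_ne_zero]
    refine Sb_zc_ne (hs T hT).2 ?_
    intro h5
    apply h0
    have h6 : l • (P + T) = l • P := by rw [smul_add, (hs T hT).1, add_zero]
    rw [← h6, h5, smul_zero]

theorem deep2 (hE : Integral A E) {l : ℕ} (hl : l ≠ 0)
    (P : E.toAffine.Point) (hP : InE1 A E P) (hP0 : P ≠ 0)
    (hd : A.valuation (zc E P) < A.valuation (l : Ω) ^ 2) :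
    l • P ≠ 0 ∧ A.valuation (zc E (l • P)) = A.valuation (l : Ω) ^ 2 * A.valuation (zc E P) := by
  obtain ⟨a, b, ha, had, hbd, hbc, hai, hbi, hAB⟩ := exists_val2 A E hE disc_ne l hl
  obtain ⟨x, y, h, rfl, hx1, hx0⟩ := Sa_some hP hP0
  rw [zc_some, map_inv₀] at hd ⊢
  have hvx : 0 < A.valuation x := zero_lt_one.trans hx1
  have hvl : 0 < A.valuation (l : Ω) := zero_lt_iff.mpr (by
    intro h0
    exact hl (by exact_mod_cast (map_eq_zero _).mp h0))
  have hd' : 1 < A.valuation (l : Ω) ^ 2 * A.valuation x := (inv_lt_iff_one_lt_mul₀ hvx).mp hd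
  have hN : 1 ≤ l ^ 2 := Nat.one_le_pow _ _ (Nat.pos_of_ne_zero hl)
  have hac : a.coeff (l ^ 2) = 1 := by rw [← had]; exact ha.coeff_natDegree
  have hva : A.valuation (a.eval x) = A.valuation x ^ (l ^ 2) := by
    have h1 := Sa_lead (A := A) had.le (x := x) (by
      rw [hac, map_one, one_mul]
      exact pow_ne_zero _ hvx.ne') (by
      intro i hi
      rw [hac, map_one, one_mul]
      calc A.valuation (a.coeff i) * A.valuation x ^ i ≤ 1 * A.valuation x ^ i := by
            gcongr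
            exact hai i
        _ = A.valuation x ^ i := one_mul _
        _ < A.valuation x ^ (l ^ 2) := pow_lt_pow_right₀ hx1 hi)
    rw [h1, hac, map_one, one_mul]
  have hvb : A.valuation (b.eval x) = A.valuation (l : Ω) ^ 2 * A.valuation x ^ (l ^ 2 - 1) := by
    have e1 : A.valuation (b.coeff (l ^ 2 - 1)) = A.valuation (l : Ω) ^ 2 := by
      rw [hbc, map_pow]
    have h1 := Sa_lead (A := A) hbd (x := x) (by
      rw [e1]
      exact mul_ne_zero (pow_ne_zero _ hvl.ne') (pow_ne_zero _ hvx.ne')) (by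
      intro i hi
      rw [e1]
      calc A.valuation (b.coeff i) * A.valuation x ^ i ≤ 1 * A.valuation x ^ i := by
            gcongr
            exact hbi i
        _ < (A.valuation (l : Ω) ^ 2 * A.valuation x) * A.valuation x ^ i :=
            mul_lt_mul_of_pos_right hd' (pow_pos hvx i)
        _ = A.valuation (l : Ω) ^ 2 * A.valuation x ^ (i + 1) := by
            rw [mul_assoc, ← pow_succ']
        _ ≤ A.valuation (l : Ω) ^ 2 * A.valuation x ^ (l ^ 2 - 1) := by
            gcongr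
            · exact hx1.le
            · omega)
    rw [h1, e1]
  have hb0 : b.eval x ≠ 0 := by
    intro h0
    rw [h0, map_zero] at hvb
    exact mul_ne_zero (pow_ne_zero _ hvl.ne') (pow_ne_zero _ hvx.ne') hvb.symm
  obtain ⟨e, he0, e1, e2⟩ := hAB.2.2 x y h
  have hne : l • (Affine.Point.some x y h : E.toAffine.Point) ≠ 0 := by
    intro h3
    rw [h3, Affine.Point.xRep_zero] at e2
    apply hb0
    simpa using e2
  refine ⟨hne, ?_⟩
  obtain ⟨x₁, y₁, h₁, e3⟩ := exists_x_eq E _ hne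
  rw [e3, Affine.Point.xRep_some] at e1 e2
  have e5 : Polynomial.eval x a = e * x₁ := by simpa using e1
  have e6 : Polynomial.eval x b = e := by simpa using e2
  have e7 : x₁⁻¹ = b.eval x / a.eval x := by
    rw [e5, e6]
    by_cases hx₁ : x₁ = 0
    · rw [hx₁]; simp
    · field_simp
  rw [e3, zc_some, e7, map_div₀, hva, hvb, div_eq_mul_inv, mul_assoc]
  congr 1
  have e8 : A.valuation x ^ (l ^ 2) = A.valuation x ^ (l ^ 2 - 1) * A.valuation x := by
    rw [← pow_succ]
    congr 1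
    omega
  rw [e8, mul_inv, ← mul_assoc, mul_inv_cancel₀ (pow_ne_zero _ hvx.ne'), one_mul]

/-- a coefficient of the denominator is a unit, because of the point `T` -/
theorem unit_coeff (hE : Integral A E) (h2 : A.valuation (2 : Ω) = 1)
    {l : ℕ} (hl : l.Prime) {lam : Ω} (hlam : A.valuation (l : Ω) = A.valuation lam ^ (l - 1))
    (h1 : A.valuation (l : Ω) < 1) {T : E.toAffine.Point} (hT0 : T ≠ 0) (hTl : l • T = 0)
    (hT : InE1 A E T) (hTv : A.valuation (zc E T) ≤ A.valuation lam ^ 2)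
    {a b : Polynomial Ω} (ha : a.Monic) (had : a.natDegree = l ^ 2)
    (hbd : b.natDegree ≤ l ^ 2 - 1) (hai : ∀ i, A.valuation (a.coeff i) ≤ 1)
    (hbi : ∀ i, A.valuation (b.coeff i) ≤ 1) (hAB : AB E l a b) :
    ∃ i, A.valuation (b.coeff i) = 1 := by
  by_contra hcon
  push Not at hcon
  -- a bound for the coefficients of `b`
  obtain ⟨μ, hμ1, hμ⟩ : ∃ μ : A.ValueGroup, μ < 1 ∧ ∀ i, A.valuation (b.coeff i) ≤ μ := by
    rcases b.support.eq_empty_or_nonempty with hs | hs
    · refine ⟨0, zero_lt_one, fun i => ?_⟩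
      have h3 : b.coeff i = 0 := by
        rw [← Polynomial.notMem_support_iff, hs]
        exact Finset.notMem_empty _
      rw [h3, map_zero]
    · obtain ⟨m, -, hmax⟩ := b.support.exists_max_image (fun i => A.valuation (b.coeff i)) hs
      refine ⟨A.valuation (b.coeff m), lt_of_le_of_ne (hbi m) (hcon m), fun i => ?_⟩
      by_cases hi : i ∈ b.support
      · exact hmax i hi
      · rw [Polynomial.notMem_support_iff.mp hi, map_zero]
        exact zero_le
  have hl0 : (l : Ω) ≠ 0 := Nat.cast_ne_zero.mpr hl.ne_zero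
  have hzT := Sb_zc_ne hT hT0
  have vT1 := hT.nu
  have vl0 : A.valuation (l : Ω) ≠ 0 := (_root_.map_ne_zero _).mpr hl0
  have vT0 : A.valuation (zc E T) ≠ 0 := (_root_.map_ne_zero _).mpr hzT
  have hx0 : (l : Ω) ^ 3 * zc E T ≠ 0 := mul_ne_zero (pow_ne_zero _ hl0) hzT
  obtain ⟨y, hxy⟩ := exists_point_of_x E ((l : Ω) ^ 3 * zc E T)⁻¹
  obtain ⟨P, hPdef⟩ : ∃ P : E.toAffine.Point, P = Affine.Point.some _ y hxy := ⟨_, rfl⟩
  have hzP : zc E P = (l : Ω) ^ 3 * zc E T := by
    rw [hPdef, zc_some, inv_inv]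
  have vP : A.valuation (zc E P) = A.valuation (l : Ω) ^ 3 * A.valuation (zc E T) := by
    rw [hzP, map_mul, map_pow]
  have cP2 : A.valuation (zc E P) < A.valuation (l : Ω) ^ 2 := by
    rw [vP]
    calc A.valuation (l : Ω) ^ 3 * A.valuation (zc E T)
        ≤ A.valuation (l : Ω) ^ 3 * 1 := mul_le_mul' le_rfl vT1.le
      _ = A.valuation (l : Ω) ^ 2 * A.valuation (l : Ω) := by rw [mul_one, pow_succ]
      _ < A.valuation (l : Ω) ^ 2 * 1 :=
          mul_lt_mul_of_pos_left h1 (zero_lt_iff.mpr (pow_ne_zero _ vl0))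
      _ = A.valuation (l : Ω) ^ 2 := mul_one _
  have cPT : A.valuation (zc E P) < A.valuation (zc E T) := by
    rw [vP]
    calc A.valuation (l : Ω) ^ 3 * A.valuation (zc E T)
        < 1 * A.valuation (zc E T) :=
          mul_lt_mul_of_pos_right (pow_lt_one₀ zero_le h1 (by norm_num)) (zero_lt_iff.mpr vT0)
      _ = A.valuation (zc E T) := one_mul _
  have vP0 : A.valuation (zc E P) ≠ 0 := by
    rw [hzP]; exact (_root_.map_ne_zero _).mpr hx0
  have hP : InE1 A E P := by
    refine Or.inr ⟨_, y, hxy, hPdef, ?_⟩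
    intro hmem
    have a1 := (A.valuation_le_one_iff _).mpr hmem
    have a2 : A.valuation ((l : Ω) ^ 3 * zc E T)⁻¹ * A.valuation ((l : Ω) ^ 3 * zc E T) = 1 := by
      rw [← map_mul, inv_mul_cancel₀ hx0, map_one]
    have a3 : A.valuation ((l : Ω) ^ 3 * zc E T) < 1 := by
      rw [← hzP]
      exact cPT.trans vT1
    have a4 : A.valuation ((l : Ω) ^ 3 * zc E T)⁻¹ * A.valuation ((l : Ω) ^ 3 * zc E T) < 1 :=
      lt_of_le_of_lt (mul_le_mul' a1 le_rfl) (by rwa [one_mul])
    rw [a2] at a4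
    exact lt_irrefl _ a4
  have hP0 : P ≠ 0 := by
    rw [hPdef]; exact Affine.Point.some_ne_zero _
  obtain ⟨hlP0, hlPv⟩ := deep2 hE hl.ne_zero P hP hP0 cP2
  have hlP : InE1 A E (l • P) := (hP.smul hE l).1
  obtain ⟨c, y', h', hlPc, hc, hc0⟩ := Sa_some hlP hlP0
  have hcv : A.valuation c = (A.valuation (l : Ω) ^ 2 * A.valuation (zc E P))⁻¹ := by
    rw [← hlPv, hlPc, zc_some, map_inv₀, inv_inv]
  have hmain := prod_gen hE h2 hl.ne_zero ha had hbd hAB P hlP hlP0 hlPc
    (max 1 (A.valuation c * μ)) (by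
      intro i
      rw [Polynomial.coeff_sub, Polynomial.coeff_C_mul]
      refine (A.valuation.map_sub _ _).trans (max_le_max (hai i) ?_)
      rw [map_mul]
      exact mul_le_mul' le_rfl (hμ i))
    ((Finset.range l).image (fun j : ℕ => j • T)) (by
      intro U hU
      obtain ⟨j, hj, rfl⟩ := Finset.mem_image.mp hU
      refine ⟨?_, (InE1.add_sub hE hP (hT.smul hE j).1).1⟩
      show l • (j • T) = 0
      rw [← mul_nsmul, mul_comm, mul_nsmul, hTl, nsmul_zero])
  rw [Finset.prod_image (fun i hi j hj hij =>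
    Sb_inj hl hT0 hTl (Finset.mem_range.mp hi) (Finset.mem_range.mp hj) hij)] at hmain
  have hl2 : l = (l - 1) + 1 := (Nat.sub_add_cancel hl.one_le).symm
  have hprod : ∏ j ∈ Finset.range l, A.valuation (zc E (P + j • T)) =
      A.valuation (zc E T) ^ (l - 1) * A.valuation (zc E P) := by
    have e1 : ∏ j ∈ Finset.range l, A.valuation (zc E (P + j • T)) =
        ∏ j ∈ Finset.range ((l - 1) + 1), A.valuation (zc E (P + j • T)) := by
      rw [← hl2]
    rw [e1, Finset.prod_range_succ', zero_nsmul, add_zero]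
    congr 1
    rw [← Finset.card_range (l - 1), ← Finset.prod_const, Finset.card_range]
    refine Finset.prod_congr rfl fun j hj => ?_
    have hj' : ¬ l ∣ (j + 1) := by
      intro hd
      have := Nat.le_of_dvd (Nat.succ_pos j) hd
      have := Finset.mem_range.mp hj
      omega
    have e2 := zc_smul_eq hE hT (j + 1) (unit_of A hl h1 hj')
    rw [zc_add_eq hE hP (hT.smul hE (j + 1)).1 (by rw [e2]; exact cPT), e2]
  have hpow : A.valuation (zc E T) ^ (l - 1) ≤ A.valuation (l : Ω) ^ 2 := by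
    calc A.valuation (zc E T) ^ (l - 1) ≤ (A.valuation lam ^ 2) ^ (l - 1) :=
          pow_le_pow_left' hTv _
      _ = (A.valuation lam ^ (l - 1)) ^ 2 := by rw [← pow_mul, ← pow_mul, mul_comm]
      _ = A.valuation (l : Ω) ^ 2 := by rw [← hlam]
  rw [hprod] at hmain
  have hcle : A.valuation c ≤ max 1 (A.valuation c * μ) := by
    refine le_trans ?_ hmain
    rw [hcv]
    refine inv_anti₀ (zero_lt_iff.2 (mul_ne_zero (pow_ne_zero _ vT0) vP0)) ?_
    exact mul_le_mul' hpow le_rfl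
  rcases le_max_iff.1 hcle with h3 | h3
  · exact absurd hc (not_lt.2 h3)
  · have h4 : A.valuation c * μ < A.valuation c * 1 :=
      mul_lt_mul_of_pos_left hμ1 (zero_lt_one.trans hc)
    rw [mul_one] at h4
    exact absurd h3 (not_le.2 h4)

theorem div_E12 (hE : Integral A E) (h2 : A.valuation (2 : Ω) = 1)
    {l : ℕ} (hp : l.Prime) {lam : Ω} (hlam : A.valuation (l : Ω) = A.valuation lam ^ (l - 1))
    (h1 : A.valuation (l : Ω) < 1) {T : E.toAffine.Point} (hT0 : T ≠ 0) (hTl : l • T = 0)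
    (hT : InE1 A E T) (hTv : A.valuation (zc E T) ≤ A.valuation lam ^ 2)
    (Q : E.toAffine.Point) (hQ : InE1 A E Q) : ∃ P, InE1 A E P ∧ l • P = Q := by
  have hl := hp.ne_zero
  by_cases hQ0 : Q = 0
  · exact ⟨0, Or.inl rfl, by rw [smul_zero, hQ0]⟩
  obtain ⟨a, b, ha, had, hbd, hbc, hai, hbi, hAB⟩ := exists_val2 A E hE disc_ne l hl
  obtain ⟨i, hi⟩ := unit_coeff hE h2 hp hlam h1 hT0 hTl hT hTv ha had hbd hai hbi hAB
  obtain ⟨c, y, h, hQc, hc, hc0⟩ := Sa_some hQ hQ0
  have hfi : 1 < A.valuation ((a - Polynomial.C c * b).coeff i) := by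
    have e1 : A.valuation (c * b.coeff i) = A.valuation c := by rw [map_mul, hi, mul_one]
    rw [Polynomial.coeff_sub, Polynomial.coeff_C_mul, Valuation.map_sub_eq_of_lt_right _
      (by rw [e1]; exact lt_of_le_of_lt (hai i) hc), e1]
    exact hc
  obtain ⟨ρ, hρ, hρ1⟩ := gauss_root A (Sa_monic hl ha had hbd c) i hfi
  obtain ⟨y', h'⟩ := exists_point_of_x E ρ
  obtain ⟨e, he0, e1, e2⟩ := hAB.2.2 ρ y' h'
  rw [Polynomial.eval_sub, Polynomial.eval_mul, Polynomial.eval_C, sub_eq_zero] at hρ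
  have hne : l • (Affine.Point.some ρ y' h' : E.toAffine.Point) ≠ 0 := by
    intro h3
    rw [h3, Affine.Point.xRep_zero] at e1 e2
    have e3 : Polynomial.eval ρ a = e := by simpa using e1
    have e4 : Polynomial.eval ρ b = 0 := by simpa using e2
    rw [e3, e4, mul_zero] at hρ
    exact he0 hρ
  obtain ⟨x₁, y₁, h₁, e3⟩ := exists_x_eq E _ hne
  rw [e3, Affine.Point.xRep_some] at e1 e2
  have e5 : Polynomial.eval ρ a = e * x₁ := by simpa using e1
  have e6 : Polynomial.eval ρ b = e := by simpa using e2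
  have hx₁ : x₁ = c := by
    rw [e5, e6, mul_comm c e] at hρ
    exact mul_left_cancel₀ he0 hρ
  have hPE := Sa_inE1 h' hρ1 (A := A)
  rcases (Affine.Point.X_eq_iff (h₁ := h₁) (h₂ := h)).mp hx₁ with h3 | h3
  · exact ⟨_, hPE, by rw [e3, h3, hQc]⟩
  · exact ⟨_, inE1_neg hPE, by rw [smul_neg, e3, h3, neg_neg, hQc]⟩

theorem tors_E12 (hE : Integral A E) (h2 : A.valuation (2 : Ω) = 1)
    {l : ℕ} (hl : l.Prime) {lam : Ω} (hlam : A.valuation (l : Ω) = A.valuation lam ^ (l - 1))
    (h1 : A.valuation (l : Ω) < 1) {T : E.toAffine.Point} (hT0 : T ≠ 0) (hTl : l • T = 0)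
    (hT : InE1 A E T) (hTv : A.valuation (zc E T) ≤ A.valuation lam ^ 2)
    (T' : E.toAffine.Point) (hT'l : l • T' = 0) (hT' : InE1 A E T') : ∃ j < l, T' = j • T := by
  by_contra hcon
  push Not at hcon
  have hT'0 : T' ≠ 0 := by
    have := hcon 0 hl.pos
    rwa [zero_nsmul] at this
  have hl0 : (l : Ω) ≠ 0 := Nat.cast_ne_zero.mpr hl.ne_zero
  have hzT := Sb_zc_ne hT hT0
  have hzT' := Sb_zc_ne hT' hT'0
  have vT1 := hT.nu
  have vT'1 := hT'.nu
  have vl0 : A.valuation (l : Ω) ≠ 0 := (_root_.map_ne_zero _).mpr hl0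
  have vT0 : A.valuation (zc E T) ≠ 0 := (_root_.map_ne_zero _).mpr hzT
  have vT'0 : A.valuation (zc E T') ≠ 0 := (_root_.map_ne_zero _).mpr hzT'
  have hx0 : (l : Ω) ^ 3 * zc E T * zc E T' ≠ 0 :=
    mul_ne_zero (mul_ne_zero (pow_ne_zero _ hl0) hzT) hzT'
  obtain ⟨y, hxy⟩ := exists_point_of_x E ((l : Ω) ^ 3 * zc E T * zc E T')⁻¹
  obtain ⟨P, hPdef⟩ : ∃ P : E.toAffine.Point, P = Affine.Point.some _ y hxy := ⟨_, rfl⟩
  have hzP : zc E P = (l : Ω) ^ 3 * zc E T * zc E T' := by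
    rw [hPdef, zc_some, inv_inv]
  have vP : A.valuation (zc E P) =
      A.valuation (l : Ω) ^ 3 * A.valuation (zc E T) * A.valuation (zc E T') := by
    rw [hzP, map_mul, map_mul, map_pow]
  have hl1 := h1.le
  -- three comparisons
  have c3 : A.valuation (l : Ω) ^ 3 ≤ 1 := pow_le_one' hl1 3
  have cP2 : A.valuation (zc E P) < A.valuation (l : Ω) ^ 2 := by
    rw [vP]
    calc A.valuation (l : Ω) ^ 3 * A.valuation (zc E T) * A.valuation (zc E T')
        ≤ A.valuation (l : Ω) ^ 3 * 1 * 1 :=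
          mul_le_mul' (mul_le_mul' le_rfl vT1.le) vT'1.le
      _ = A.valuation (l : Ω) ^ 2 * A.valuation (l : Ω) := by rw [mul_one, mul_one, pow_succ]
      _ < A.valuation (l : Ω) ^ 2 * 1 :=
          mul_lt_mul_of_pos_left h1 (zero_lt_iff.mpr (pow_ne_zero _ vl0))
      _ = A.valuation (l : Ω) ^ 2 := mul_one _
  have cPT : A.valuation (zc E P) < A.valuation (zc E T) := by
    rw [vP]
    calc A.valuation (l : Ω) ^ 3 * A.valuation (zc E T) * A.valuation (zc E T')
        ≤ 1 * A.valuation (zc E T) * A.valuation (zc E T') :=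
          mul_le_mul' (mul_le_mul' c3 le_rfl) le_rfl
      _ = A.valuation (zc E T) * A.valuation (zc E T') := by rw [one_mul]
      _ < A.valuation (zc E T) * 1 := mul_lt_mul_of_pos_left vT'1 (zero_lt_iff.mpr vT0)
      _ = A.valuation (zc E T) := mul_one _
  have cPT' : A.valuation (zc E P) < A.valuation (zc E T') := by
    rw [vP]
    calc A.valuation (l : Ω) ^ 3 * A.valuation (zc E T) * A.valuation (zc E T')
        ≤ 1 * A.valuation (zc E T) * A.valuation (zc E T') :=
          mul_le_mul' (mul_le_mul' c3 le_rfl) le_rfl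
      _ = A.valuation (zc E T) * A.valuation (zc E T') := by rw [one_mul]
      _ < 1 * A.valuation (zc E T') := mul_lt_mul_of_pos_right vT1 (zero_lt_iff.mpr vT'0)
      _ = A.valuation (zc E T') := one_mul _
  have vP0 : A.valuation (zc E P) ≠ 0 := by
    rw [hzP]; exact (_root_.map_ne_zero _).mpr hx0
  have hP : InE1 A E P := by
    refine Or.inr ⟨_, y, hxy, hPdef, ?_⟩
    intro hmem
    have a1 := (A.valuation_le_one_iff _).mpr hmem
    have a2 : A.valuation ((l : Ω) ^ 3 * zc E T * zc E T')⁻¹ *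
        A.valuation ((l : Ω) ^ 3 * zc E T * zc E T') = 1 := by
      rw [← map_mul, inv_mul_cancel₀ hx0, map_one]
    have a3 : A.valuation ((l : Ω) ^ 3 * zc E T * zc E T') < 1 := by
      rw [← hzP]
      exact cPT.trans vT1
    have a4 : A.valuation ((l : Ω) ^ 3 * zc E T * zc E T')⁻¹ *
        A.valuation ((l : Ω) ^ 3 * zc E T * zc E T') < 1 :=
      lt_of_le_of_lt (mul_le_mul' a1 le_rfl) (by rwa [one_mul])
    rw [a2] at a4
    exact lt_irrefl _ a4
  have hP0 : P ≠ 0 := by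
    rw [hPdef]; exact Affine.Point.some_ne_zero _
  obtain ⟨hlP0, hlPv⟩ := deep2 hE hl.ne_zero P hP hP0 cP2
  have hlP : InE1 A E (l • P) := (hP.smul hE l).1
  have hnot : T' ∉ (Finset.range l).image (fun j : ℕ => j • T) := by
    intro hmem
    obtain ⟨j, hj, hjT⟩ := Finset.mem_image.mp hmem
    exact hcon j (Finset.mem_range.mp hj) hjT.symm
  have hmain := prod_le2 hE h2 hl.ne_zero P hlP hlP0
    (insert T' ((Finset.range l).image (fun j : ℕ => j • T))) (by
      intro U hU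
      rcases Finset.mem_insert.mp hU with rfl | hU
      · exact ⟨hT'l, (InE1.add_sub hE hP hT').1⟩
      · obtain ⟨j, hj, rfl⟩ := Finset.mem_image.mp hU
        refine ⟨?_, (InE1.add_sub hE hP (hT.smul hE j).1).1⟩
        show l • (j • T) = 0
        rw [← mul_nsmul, mul_comm, mul_nsmul, hTl, nsmul_zero])
  rw [Finset.prod_insert hnot, Finset.prod_image (fun i hi j hj hij =>
    Sb_inj hl hT0 hTl (Finset.mem_range.mp hi) (Finset.mem_range.mp hj) hij)] at hmain
  have hl2 : l = (l - 1) + 1 := (Nat.sub_add_cancel hl.one_le).symm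
  have hprod : ∏ j ∈ Finset.range l, A.valuation (zc E (P + j • T)) =
      A.valuation (zc E T) ^ (l - 1) * A.valuation (zc E P) := by
    have e1 : ∏ j ∈ Finset.range l, A.valuation (zc E (P + j • T)) =
        ∏ j ∈ Finset.range ((l - 1) + 1), A.valuation (zc E (P + j • T)) := by
      rw [← hl2]
    rw [e1, Finset.prod_range_succ', zero_nsmul, add_zero]
    congr 1
    rw [← Finset.card_range (l - 1), ← Finset.prod_const, Finset.card_range]
    refine Finset.prod_congr rfl fun j hj => ?_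
    have hj' : ¬ l ∣ (j + 1) := by
      intro hd
      have := Nat.le_of_dvd (Nat.succ_pos j) hd
      have := Finset.mem_range.mp hj
      omega
    have e2 := zc_smul_eq hE hT (j + 1) (unit_of A hl h1 hj')
    rw [zc_add_eq hE hP (hT.smul hE (j + 1)).1 (by rw [e2]; exact cPT), e2]
  rw [hprod, zc_add_eq hE hP hT' cPT', hlPv] at hmain
  have hpow : A.valuation (zc E T) ^ (l - 1) ≤ A.valuation (l : Ω) ^ 2 := by
    calc A.valuation (zc E T) ^ (l - 1) ≤ (A.valuation lam ^ 2) ^ (l - 1) :=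
          pow_le_pow_left' hTv _
      _ = (A.valuation lam ^ (l - 1)) ^ 2 := by rw [← pow_mul, ← pow_mul, mul_comm]
      _ = A.valuation (l : Ω) ^ 2 := by rw [← hlam]
  have hfin : A.valuation (zc E T') *
      (A.valuation (zc E T) ^ (l - 1) * A.valuation (zc E P)) <
      A.valuation (l : Ω) ^ 2 * A.valuation (zc E P) := by
    calc A.valuation (zc E T') * (A.valuation (zc E T) ^ (l - 1) * A.valuation (zc E P))
        ≤ A.valuation (zc E T') * (A.valuation (l : Ω) ^ 2 * A.valuation (zc E P)) :=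
          mul_le_mul' le_rfl (mul_le_mul' hpow le_rfl)
      _ < 1 * (A.valuation (l : Ω) ^ 2 * A.valuation (zc E P)) :=
          mul_lt_mul_of_pos_right vT'1
            (zero_lt_iff.mpr (mul_ne_zero (pow_ne_zero _ vl0) vP0))
      _ = A.valuation (l : Ω) ^ 2 * A.valuation (zc E P) := one_mul _
  exact absurd hmain (not_le.mpr hfin)

theorem smul_le2 (hE : Integral A E) (h2 : A.valuation (2 : Ω) = 1)
    {l : ℕ} (hl : l.Prime) {T : E.toAffine.Point} (hT0 : T ≠ 0) (hTl : l • T = 0)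
    (hT : InE1 A E T) {P : E.toAffine.Point} (hP : InE1 A E P) (c : A.ValueGroup)
    (hc : ∀ j < l, A.valuation (zc E (P + j • T)) ≤ c) :
    A.valuation (zc E (l • P)) ≤ c ^ l := by
  by_cases h0 : l • P = 0
  · rw [h0, zc_zero, map_zero]
    exact zero_le
  have hlP : InE1 A E (l • P) := (hP.smul hE l).1
  have hmain := prod_le2 hE h2 hl.ne_zero P hlP h0
    ((Finset.range l).image (fun j : ℕ => j • T)) (by
      intro U hU
      obtain ⟨j, hj, rfl⟩ := Finset.mem_image.mp hU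
      refine ⟨?_, (InE1.add_sub hE hP (hT.smul hE j).1).1⟩
      show l • (j • T) = 0
      rw [← mul_nsmul, mul_comm, mul_nsmul, hTl, nsmul_zero])
  rw [Finset.prod_image (fun i hi j hj hij =>
    Sb_inj hl hT0 hTl (Finset.mem_range.mp hi) (Finset.mem_range.mp hj) hij)] at hmain
  refine hmain.trans ?_
  refine (Finset.prod_le_pow_card _ _ c fun j hj => hc j (Finset.mem_range.mp hj)).trans ?_
  rw [Finset.card_range]

end

theorem exists_ZP2 {F : Type} [Field F] [NumberField F] {w : HeightOneSpectrum (𝓞 F)}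
    {A : ValuationSubring (AlgebraicClosure F)}
    {D : Subgroup (AlgebraicClosure F ≃ₐ[F] AlgebraicClosure F)} (h : LS w A D)
    {W : WeierstrassCurve F} [W.IsElliptic]
    (hE : Integral A (W.baseChange (AlgebraicClosure F)))
    (h2 : A.valuation (2 : AlgebraicClosure F) = 1) {l : ℕ} (hl : l.Prime) {ζ : F}
    (hζ : IsPrimitiveRoot ζ l) (h1 : A.valuation (l : AlgebraicClosure F) < 1)
    {T : W.toAffine.Point} (hT0 : T ≠ 0) (hTl : l • T = 0) (hT : InE1 A _ (tp W T))
    (hTv : A.valuation (zc _ (tp W T)) ≤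
      A.valuation (algebraMap F (AlgebraicClosure F) ζ - 1) ^ 2)
    {u : F} (hu0 : u ≠ 0) (hu : w.valuation F u < 1) :
    ∃ x : F, ZP l W T ζ A D u x := by
  have hl0 : l ≠ 0 := hl.ne_zero
  have hEl : (W.baseChange (AlgebraicClosure F)).IsElliptic := by
    rw [WeierstrassCurve.baseChange]
    infer_instance
  obtain ⟨R, hRz, hR1, hRD⟩ := exists_R h hE h2 hu0 hu
  have ht0 : tp W T ≠ 0 := fun h0 =>
    hT0 (pm_injective (algebraMap F (AlgebraicClosure F)) rfl (h0.trans (map_zero _).symm))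
  have htl : l • tp W T = 0 := by
    show l • pm (algebraMap F (AlgebraicClosure F)) rfl T = 0
    rw [← map_nsmul, hTl, map_zero]
  have hzp : IsPrimitiveRoot (algebraMap F (AlgebraicClosure F) ζ) l :=
    hζ.map_of_injective (algebraMap F (AlgebraicClosure F)).injective
  obtain ⟨P, hP1, hPR⟩ := div_E12 hE h2 hl (pow_val A hl hzp) h1 ht0 htl hT hTv R hR1
  have key : ∀ σ : AlgebraicClosure F ≃ₐ[F] AlgebraicClosure F, ∃ a : ℕ, σ ∈ D →
      act (inv_bc F W) σ P - P = a • tp W T := by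
    intro σ
    by_cases hσ : σ ∈ D
    · have h3 : InE1 A _ (act (inv_bc F W) σ P - P) :=
        (InE1.add_sub hE (Ss_inE1_act h hσ hP1) hP1).2.1
      have h4 : l • (act (inv_bc F W) σ P - P) = 0 := by
        rw [nsmul_sub, ← map_nsmul, hPR, hRD σ hσ, sub_self]
      obtain ⟨j, -, hj⟩ := tors_E12 hE h2 hl (pow_val A hl hzp) h1 ht0 htl hT hTv _ h4 h3
      exact ⟨j, fun _ => hj⟩
    · exact ⟨0, fun h3 => absurd h3 hσ⟩
  choose a ha using key
  have hmul : ∀ σ ∈ D, ∀ τ ∈ D, a (σ * τ) ≡ a σ + a τ [MOD l] := by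
    intro σ hσ τ hτ
    rw [← smul_iff hl ht0 htl, ← ha _ (D.mul_mem hσ hτ), add_smul, ← ha σ hσ, ← ha τ hτ,
      Pool.Agent.H10.act_mul]
    have h3 : act (inv_bc F W) σ (act (inv_bc F W) τ P - P) = act (inv_bc F W) τ P - P := by
      rw [ha τ hτ, map_nsmul, Ss_act_tp]
    rw [map_sub] at h3
    rw [← h3]
    abel
  have hS : ∃ S : Finset (AlgebraicClosure F), ∀ σ ∈ D, (∀ x ∈ S, σ x = x) →
      a σ ≡ 0 [MOD l] := by
    obtain ⟨S, hS⟩ := Ss_coords P
    refine ⟨S, fun σ hσ hx => ?_⟩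
    rw [← smul_iff hl ht0 htl, ← ha σ hσ, hS σ hx, sub_self, zero_nsmul]
  obtain ⟨r₀, hr0, hr⟩ := kum_D D hl0 hζ a hmul hS
  have hy : ∀ σ ∈ D, σ (r₀ ^ l) = r₀ ^ l := by
    intro σ hσ
    rw [map_pow, hr σ hσ, mul_pow, ← pow_mul, mul_comm (a σ) l, pow_mul, hzp.pow_eq_one,
      one_pow, one_mul]
  obtain ⟨x, s, hx0, hs, hys⟩ := fixed_split h hl hζ hy (pow_ne_zero l hr0)
  have hs0 : s ≠ 0 := by
    rintro rfl
    rw [zero_pow hl0, mul_zero] at hys
    exact pow_ne_zero l hr0 hys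
  refine ⟨x, r₀ / s, P, R, hx0, ?_, hRz, hR1, hP1, hPR, hRD, ?_⟩
  · rw [div_pow, hys, mul_div_assoc, div_self (pow_ne_zero l hs0), mul_one]
  · intro σ hσ b hb
    rw [map_div₀, hr σ hσ, hs σ hσ, mul_div_assoc] at hb
    have h3 : algebraMap F (AlgebraicClosure F) ζ ^ a σ =
        algebraMap F (AlgebraicClosure F) ζ ^ b :=
      mul_right_cancel₀ (div_ne_zero hr0 hs0) hb
    rw [ha σ hσ]
    exact (smul_iff hl ht0 htl _ _).2 (Ss_pow_inj hl0 hzp h3)

theorem not_RT2 {F : Type} [Field F] [NumberField F] {w : HeightOneSpectrum (𝓞 F)}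
    {A : ValuationSubring (AlgebraicClosure F)}
    {D : Subgroup (AlgebraicClosure F ≃ₐ[F] AlgebraicClosure F)} (h : LS w A D)
    {W : WeierstrassCurve F} [W.IsElliptic]
    (hE : Integral A (W.baseChange (AlgebraicClosure F)))
    (h2 : A.valuation (2 : AlgebraicClosure F) = 1) {l : ℕ} (hl : l.Prime) {ζ : F}
    (hζ : IsPrimitiveRoot ζ l) (hlam : w.valuation F (ζ - 1) = exp (-1 : ℤ))
    {T : W.toAffine.Point} (hT0 : T ≠ 0) (hTl : l • T = 0) (hT : InE1 A _ (tp W T))
    {u u' x x' : F} (hx : ZP l W T ζ A D u x) (hx' : ZP l W T ζ A D u' x')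
    (hu : w.valuation F u = exp (-1 : ℤ)) (hu' : w.valuation F u' = exp (-1 : ℤ))
    (hs : w.valuation F (u + u') = exp (-1 : ℤ))
    (hd : exp (-(l : ℤ)) < w.valuation F (u - u')) : ¬ RT l D (x / x') := by
  rintro ⟨s, hsD, hsl⟩
  have hEl : (W.baseChange (AlgebraicClosure F)).IsElliptic := by
    rw [WeierstrassCurve.baseChange]
    infer_instance
  obtain ⟨r, P, R, hx0, hr, hzR, hR, hP, hlP, hRD, hσ⟩ := hx
  obtain ⟨r', P', R', hx0', hr', hzR', hR', hP', hlP', hRD', hσ'⟩ := hx'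
  have : NeZero l := ⟨hl.ne_zero⟩
  have hz : IsPrimitiveRoot (algebraMap F (AlgebraicClosure F) ζ) l :=
    hζ.map_of_injective (algebraMap F (AlgebraicClosure F)).injective
  have hX0 : algebraMap F (AlgebraicClosure F) x ≠ 0 := (_root_.map_ne_zero _).2 hx0
  have hX0' : algebraMap F (AlgebraicClosure F) x' ≠ 0 := (_root_.map_ne_zero _).2 hx0'
  have hr0 : r ≠ 0 := by
    rintro rfl
    rw [zero_pow hl.ne_zero] at hr
    exact hX0 hr.symm
  have hr0' : r' ≠ 0 := by
    rintro rfl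
    rw [zero_pow hl.ne_zero] at hr'
    exact hX0' hr'.symm
  have hs0 : s ≠ 0 := by
    rintro rfl
    rw [zero_pow hl.ne_zero, map_div₀] at hsl
    exact div_ne_zero hX0 hX0' hsl.symm
  have hq : (r / (s * r')) ^ l = 1 := by
    rw [div_pow, mul_pow, hr, hsl, hr', map_div₀, div_mul_cancel₀ _ hX0', div_self hX0]
  obtain ⟨i, -, hi⟩ := hz.eq_pow_of_pow_eq_one hq
  have hri : r = algebraMap F (AlgebraicClosure F) ζ ^ i * (s * r') := by
    rw [hi, div_mul_cancel₀ _ (mul_ne_zero hs0 hr0')]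
  have hfix : ∀ σ ∈ D, act (inv_bc F W) σ (P - P') = P - P' := by
    intro σ hσD
    obtain ⟨b, hb⟩ := kum_a hl.ne_zero hζ hx0' hr' σ
    have h1 : σ r = algebraMap F (AlgebraicClosure F) ζ ^ b * r := by
      rw [hri, map_mul, map_mul, map_pow, σ.commutes, hsD σ hσD, hb]
      ring
    have e1 := hσ σ hσD b h1
    have e2 := hσ' σ hσD b hb
    rw [map_sub]
    have e3 : act (inv_bc F W) σ P = b • tp W T + P := by rw [← e1]; abel
    have e4 : act (inv_bc F W) σ P' = b • tp W T + P' := by rw [← e2]; abel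
    rw [e3, e4]
    abel
  have hQ : InE1 A _ (P - P') := (InE1.add_sub hE hP hP').2.1
  have hT0' : tp W T ≠ 0 := by
    intro h0
    exact hT0 (pm_injective (algebraMap F (AlgebraicClosure F)) rfl (h0.trans (map_zero _).symm))
  have hTl' : l • tp W T = 0 :=
    (map_nsmul (pm (algebraMap F (AlgebraicClosure F)) rfl) l T).symm.trans
      ((congrArg (pm (algebraMap F (AlgebraicClosure F)) rfl) hTl).trans (map_zero _))
  have hg := smul_le2 hE h2 hl hT0' hTl' hT hQ
    (A.valuation (algebraMap F (AlgebraicClosure F) (ζ - 1)) ^ 2) (by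
      intro j _
      refine zc_fixed h hE hlam (InE1.add_sub hE hQ (hT.smul hE j).1).1 ?_
      intro σ hσD
      rw [map_add, hfix σ hσD, map_nsmul, Sw_act_tp])
  have hlQ : l • (P - P') = R - R' := by rw [nsmul_sub, hlP, hlP']
  rw [hlQ] at hg
  have hU : A.valuation (algebraMap F (AlgebraicClosure F) u) =
      A.valuation (algebraMap F (AlgebraicClosure F) (ζ - 1)) := (h.val_eq _ _).2 (hu.trans hlam.symm)
  have hU' : A.valuation (algebraMap F (AlgebraicClosure F) u') =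
      A.valuation (algebraMap F (AlgebraicClosure F) (ζ - 1)) := (h.val_eq _ _).2 (hu'.trans hlam.symm)
  have hS : A.valuation (algebraMap F (AlgebraicClosure F) (u + u')) =
      A.valuation (algebraMap F (AlgebraicClosure F) (ζ - 1)) := (h.val_eq _ _).2 (hs.trans hlam.symm)
  have hD' : A.valuation (algebraMap F (AlgebraicClosure F) (ζ - 1)) ^ l <
      A.valuation (algebraMap F (AlgebraicClosure F) (u - u')) := by
    rw [← map_pow, ← map_pow]
    refine (h.val_lt _ _).2 ?_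
    rw [map_pow, hlam, ← exp_nsmul]
    have e : l • (-1 : ℤ) = -(l : ℤ) := by simp
    rw [e]
    exact hd
  have hprod := zc_prod hE hR hR'
  have hadd := zc_add_le hE hR hR'
  rw [hzR, hzR', map_pow, map_pow, hU, hU', max_self] at hadd
  have hfac : zc (W.baseChange (AlgebraicClosure F)) R - zc (W.baseChange (AlgebraicClosure F)) R' =
      algebraMap F (AlgebraicClosure F) (u + u') * algebraMap F (AlgebraicClosure F) (u - u') := by
    rw [hzR, hzR', map_add, map_sub]
    ring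
  rw [hfac, map_mul, hS] at hprod
  set g := A.valuation (algebraMap F (AlgebraicClosure F) (ζ - 1)) with hgdef
  set d := A.valuation (algebraMap F (AlgebraicClosure F) (u - u')) with hddef
  have hg0 : 0 < g := by
    rw [zero_lt_iff]
    intro h0
    have h3 : w.valuation F (ζ - 1) ≠ 0 := by rw [hlam]; exact exp_ne_zero
    have h4 : ζ - 1 ≠ 0 := by
      intro h5
      rw [h5, map_zero] at h3
      exact h3 rfl
    rw [hgdef, map_eq_zero, map_eq_zero] at h0
    exact h4 h0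
  have hle : (g * d) ^ 2 ≤ g ^ 2 * (g ^ 2) ^ l := by
    rw [← hprod]
    exact mul_le_mul' hadd hg
  rw [mul_pow, ← pow_mul, mul_comm 2 l, pow_mul] at hle
  have hlt : (g ^ l) ^ 2 < d ^ 2 := by
    rw [sq, sq]
    exact mul_lt_mul'' hD' hD' zero_le zero_le
  have := mul_lt_mul_of_pos_left hlt (pow_pos hg0 2)
  exact absurd hle (not_le.2 this)

theorem S_pigeon2 {F : Type} [Field F] [NumberField F] {w : HeightOneSpectrum (𝓞 F)}
    {A : ValuationSubring (AlgebraicClosure F)}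
    {D : Subgroup (AlgebraicClosure F ≃ₐ[F] AlgebraicClosure F)} (h : LS w A D)
    {W : WeierstrassCurve F} [W.IsElliptic]
    (hgood : w.valuation F W.a₁ ≤ 1 ∧ w.valuation F W.a₂ ≤ 1 ∧ w.valuation F W.a₃ ≤ 1 ∧
      w.valuation F W.a₄ ≤ 1 ∧ w.valuation F W.a₆ ≤ 1)
    {l : ℕ} (hl : l.Prime) (hl2 : l ≠ 2) {ζ : F} (hζ : IsPrimitiveRoot ζ l)
    (hlam : w.valuation F (ζ - 1) = exp (-1 : ℤ)) {T : W.toAffine.Point} (hTl : l • T = 0)
    (hT : ∃ x y hxy, T = Affine.Point.some x y hxy ∧ 1 < w.valuation F x)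
    (u : Fin (3 * l ^ 2 + 1) → F) (hu : ∀ i, u i ≠ 0) :
    ∃ i j, i ≠ j ∧ DX l W T ζ D (u i / u j) := by
  classical
  have hl0 : l ≠ 0 := hl.ne_zero
  set z : AlgebraicClosure F := algebraMap F (AlgebraicClosure F) ζ with hzdef
  have hz : IsPrimitiveRoot z l :=
    hζ.map_of_injective (algebraMap F (AlgebraicClosure F)).injective
  have hE : Integral A (W.baseChange (AlgebraicClosure F)) :=
    ⟨(h.ovr _).2 hgood.1, (h.ovr _).2 hgood.2.1, (h.ovr _).2 hgood.2.2.1,
      (h.ovr _).2 hgood.2.2.2.1, (h.ovr _).2 hgood.2.2.2.2⟩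
  have hlam1 : w.valuation F (ζ - 1) < 1 := by
    rw [hlam, ← exp_zero]
    exact exp_lt_exp.2 (by norm_num)
  have hz1 : A.valuation (z - 1) < 1 := by
    have e1 := (h.val_lt_one (ζ - 1)).2 hlam1
    rwa [map_sub, map_one] at e1
  have h1 : A.valuation (l : AlgebraicClosure F) < 1 := by
    rw [pow_val A hl hz]
    exact pow_lt_one₀ zero_le hz1 (by have := hl.two_le; omega)
  have hl3 : ¬ l ∣ 2 := by
    intro hd
    have e1 := Nat.le_of_dvd (by norm_num) hd
    have e2 := hl.two_le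
    omega
  have h2 : A.valuation (2 : AlgebraicClosure F) = 1 := by
    have e1 := unit_of A hl h1 hl3
    simpa using e1
  have h2w : (2 : 𝓞 F) ∉ w.asIdeal := by
    intro hmem
    have e1 : w.valuation F (algebraMap (𝓞 F) F 2) < 1 := by
      rw [w.valuation_of_algebraMap]
      exact w.intValuation_lt_one_iff_mem _ |>.2 hmem
    rw [map_ofNat] at e1
    have e2 := (h.val_lt_one 2).2 e1
    rw [map_ofNat, h2] at e2
    exact lt_irrefl _ e2
  have hT0 : T ≠ 0 := by
    obtain ⟨x, y, hxy, rfl, hx⟩ := hT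
    exact Affine.Point.some_ne_zero _
  have hE1 : InE1 A _ (tp W T) := by
    obtain ⟨x, y, hxy, rfl, hx⟩ := hT
    refine Or.inr ⟨_, _, _, pm_some _ _ hxy, ?_⟩
    intro hmem
    exact absurd hx (not_lt.2 ((h.ovr x).1 hmem))
  have hTl' : l • tp W T = 0 := by
    show l • pm (algebraMap F (AlgebraicClosure F)) rfl T = 0
    rw [← map_nsmul, hTl, map_zero]
  have hTv : A.valuation (zc _ (tp W T)) ≤ A.valuation (z - 1) ^ 2 := by
    have e1 := zc_fixed h hE hlam hE1 (fun σ _ => Sp_act_tp W T σ)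
    rwa [map_sub, map_one] at e1
  obtain ⟨n, u', hn, hu1, hu2, hu3⟩ := exists_half w hl.two_le h2w
  have hu0' : ∀ i, u' i ≠ 0 := by
    intro i hi
    have e1 := hu1 i
    rw [hi, map_zero] at e1
    exact exp_ne_zero e1.symm
  have hult : ∀ i, w.valuation F (u' i) < 1 := by
    intro i
    rw [hu1 i, ← exp_zero]
    exact exp_lt_exp.2 (by norm_num)
  have hZP : ∀ i, ∃ x : F, ZP l W T ζ A D (u' i) x := fun i =>
    exists_ZP2 h hE h2 hl hζ h1 hT0 hTl hE1 hTv (hu0' i) (hult i)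
  choose x' hx' using hZP
  have hx0 : ∀ i, x' i ≠ 0 := by
    intro i
    obtain ⟨r, P, R, e1, _⟩ := hx' i
    exact e1
  have hDX : ∀ i, DX l W T ζ D (x' i) := by
    intro i
    obtain ⟨r, P, R, _, e2, _, _, _, _, _, e3⟩ := hx' i
    exact ⟨r, P, e2, e3⟩
  have hNR : ∀ i j, i ≠ j → ¬ RT l D (x' i / x' j) := fun i j hij =>
    not_RT2 h hE h2 hl hζ hlam hT0 hTl hE1 (hx' i) (hx' j) (hu1 i) (hu1 j) (hu2 i j)
      (hu3 i j hij)
  by_contra hcon
  push Not at hcon
  have hq : 0 < Ideal.absNorm w.asIdeal := by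
    refine Nat.pos_of_ne_zero fun h0 => ?_
    exact w.ne_bot ((Ideal.absNorm_eq_zero_iff).1 h0)
  have hcard : Fintype.card (Fin (l ^ 2 * Ideal.absNorm w.asIdeal ^ (l - 1) + 1)) ≤
      Fintype.card (Fin (3 * l ^ 2 + 1) × Fin n) := by
    rw [Fintype.card_prod, Fintype.card_fin, Fintype.card_fin, Fintype.card_fin]
    have e1 : 0 < Ideal.absNorm w.asIdeal ^ (l - 1) := pow_pos hq _
    have e2 : 1 ≤ n := by omega
    have e3 : l ^ 2 * Ideal.absNorm w.asIdeal ^ (l - 1) ≤ l ^ 2 * (3 * n) :=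
      Nat.mul_le_mul_left _ hn
    nlinarith
  obtain ⟨e⟩ := Function.Embedding.nonempty_of_card_le hcard
  obtain ⟨a, b, hab, y, X, hy, hX, hXv⟩ := class_pigeon w hl hζ hlam
    (fun a => u (e a).1 * x' (e a).2) (fun a => mul_ne_zero (hu _) (hx0 _))
  have hRT : RT l D (u (e a).1 * x' (e a).2 / (u (e b).1 * x' (e b).2)) := by
    have e1 : u (e a).1 * x' (e a).2 / (u (e b).1 * x' (e b).2) = y ^ l * X := hX
    rw [e1]
    exact rt_mul (rt_pow y) (rt_close h hl hζ hXv)
  have hne : e a ≠ e b := fun he => hab (e.injective he)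
  by_cases hi : (e a).1 = (e b).1
  · have hj : (e a).2 ≠ (e b).2 := fun hj => hne (Prod.ext hi hj)
    apply hNR _ _ hj
    have e1 : u (e a).1 * x' (e a).2 / (u (e b).1 * x' (e b).2) = x' (e a).2 / x' (e b).2 := by
      rw [hi]
      exact mul_div_mul_left _ _ (hu _)
    rwa [e1] at hRT
  · apply hcon _ _ hi
    have hq0 : u (e a).1 * x' (e a).2 / (u (e b).1 * x' (e b).2) ≠ 0 :=
      div_ne_zero (mul_ne_zero (hu _) (hx0 _)) (mul_ne_zero (hu _) (hx0 _))
    have e1 : u (e a).1 / u (e b).1 =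
        u (e a).1 * x' (e a).2 / (u (e b).1 * x' (e b).2) * (x' (e b).2 * (x' (e a).2)⁻¹) := by
      have f1 := hx0 (e a).2
      have f2 := hx0 (e b).2
      have f3 := hu (e b).1
      field_simp
    rw [e1]
    exact dx_mul hl0 hζ hTl' hq0 (mul_ne_zero (hx0 _) (inv_ne_zero (hx0 _)))
      (dx_of_rt hl0 hζ hTl' hq0 hRT)
      (dx_mul hl0 hζ hTl' (hx0 _) (inv_ne_zero (hx0 _)) (hDX _)
        (dx_inv hl0 hζ hTl' (hx0 _) (hDX _)))

end H86H
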